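import Pool.Agent.H320R2.PDGood
import Pool.Agent.H499R2.NDDecay

/-! Level of distribution: polynomial decay of the nonuniformity beyond the diagonal, linearly far. -/

set_option autoImplicit false
set_option linter.unusedVariables false

namespace Pool.Agent.H319R3.LV

open Pool.Agent.H320R2.PD Pool.Agent.H499R2.ND Finset Real

/-- the entropy argument with a rate -/
theorem gam_rate (k : ℕ) (hk : 40 ≤ k) (A : ℕ) (hA : 3 * k ≤ A) :
    ∃ q : ℕ, 11 * k ≤ 10 * q ∧ 10 * q ≤ 12 * k ∧ gam A k q ≤ 8700 / √(√(k : ℝ)) := by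
  have hk40 : (40 : ℝ) ≤ k := by exact_mod_cast hk
  have hkp : (0 : ℝ) < k := by linarith
  set s : ℝ := √(√(k : ℝ)) with hs
  have hs2 : s ^ 2 = √(k : ℝ) := Real.sq_sqrt (Real.sqrt_nonneg _)
  have hs4 : s ^ 4 = k := by
    rw [show s ^ 4 = (s ^ 2) ^ 2 by ring, hs2, Real.sq_sqrt hkp.le]
  have hs0 : 0 < s := Real.sqrt_pos.2 (Real.sqrt_pos.2 hkp)
  have hs1 : 1 ≤ s := by
    by_contra hcon
    push Not at hcon
    have : s ^ 4 ≤ 1 := pow_le_one₀ hs0.le hcon.le
    linarith
  set η : ℝ := 1 / s with hη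
  have hη0 : 0 < η := by positivity
  have hη1 : η ≤ 1 := by rw [hη, div_le_one hs0]; exact hs1
  have hl2 : 0 < log 2 := log_pos (by norm_num)
  have hl3 : 0 < log 3 := log_pos (by norm_num)
  have hlk : 0 ≤ log k := log_nonneg (by linarith)
  set E : ℝ := (2 + η) * k * log 2 + 2 * log k with hE
  have hE0 : 0 ≤ E := by positivity
  set M : ℕ := ⌊E / log 3⌋₊ + 1 with hM
  have hM1 : E < M * log 3 := by
    have := Nat.lt_floor_add_one (E / log 3)
    rw [div_lt_iff₀ hl3] at this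
    rw [hM]; push_cast; exact this
  have hM2 : (M : ℝ) * log 3 ≤ E + log 3 := by
    have := Nat.floor_le (a := E / log 3) (by positivity)
    rw [le_div_iff₀ hl3] at this
    rw [hM]; push_cast
    linarith
  have hM3 : (2 : ℝ) ^ ((2 + η) * k) * (k : ℝ) ^ 2 < 3 ^ M := by
    rw [← log_lt_log_iff (by positivity) (by positivity), log_mul (by positivity) (by positivity),
      log_rpow (by norm_num), log_pow, log_pow]
    push_cast
    exact hM1
  have hsum := gam_sum_le (A := A) hη0 hη1 (by omega) M hM3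
  have htyp := typ_mass (A := A) hη0 hη1 (k := k) (by omega) hA
  have hl2' : log 2 ≤ 1 := by
    have := log_two_lt_d9
    linarith
  have hlog : 2 * log k + log (3 * k + 1) ≤ 8 * s ^ 2 := by
    have h1 : log ((k : ℝ)) ≤ 2 * √k := by
      have h2 := log_le_sub_one_of_pos (x := √(k : ℝ)) (Real.sqrt_pos.2 hkp)
      rw [Real.log_sqrt hkp.le] at h2
      linarith
    have h3 : log (3 * (k : ℝ) + 1) ≤ 4 * √k := by
      have h4 : 0 < √(3 * (k : ℝ) + 1) := Real.sqrt_pos.2 (by positivity)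
      have h2 := log_le_sub_one_of_pos h4
      rw [Real.log_sqrt (by positivity)] at h2
      have h5 : √(3 * (k : ℝ) + 1) ≤ √(4 * k) := by
        apply Real.sqrt_le_sqrt
        linarith
      have h6 : √(4 * (k : ℝ)) = 2 * √k := by
        rw [Real.sqrt_mul (by norm_num), show (4 : ℝ) = 2 ^ 2 by norm_num,
          Real.sqrt_sq (by norm_num)]
      linarith
    rw [hs2]
    linarith
  have hηk : η * k = s ^ 3 := by
    rw [hη, ← hs4]; field_simp
  have hη2 : 64 / η ^ 2 = 64 * s ^ 2 := by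
    rw [hη]; field_simp
  have hmain : ∑ j ∈ range M, gam A k j ≤ 435 * s ^ 3 := by
    refine hsum.trans ?_
    have h1 : (2 - η) * k * log 2 * (1 - 2 / k - 64 / (η ^ 2 * k))
        ≤ (2 - η) * k * log 2 * ∑ w ∈ typ A k η, wwt w := by
      refine mul_le_mul_of_nonneg_left htyp ?_
      have : 0 ≤ 2 - η := by linarith
      positivity
    have h2 : (2 - η) * k * log 2 * (1 - 2 / k - 64 / (η ^ 2 * k))
        = (2 - η) * k * log 2 - (2 - η) * log 2 * (2 + 64 / η ^ 2) := by
      field_simp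
      ring
    have h3 : (2 - η) * log 2 * (2 + 64 / η ^ 2) ≤ 2 * (2 + 64 / η ^ 2) := by
      refine mul_le_mul_of_nonneg_right ?_ (by positivity)
      nlinarith
    have hl3' : log 3 ≤ 2 := by
      have := log_le_sub_one_of_pos (x := 3) (by norm_num)
      linarith
    have h4 : 2 * (η * k) * log 2 ≤ 2 * (η * k) := by
      have : 0 ≤ 2 * (η * k) := by positivity
      nlinarith
    rw [h2] at h1
    have h7 : (M : ℝ) * log 3 ≤ (2 + η) * k * log 2 + 2 * log k + 2 := by linarith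
    have h8 : (2 + η) * k * log 2 - (2 - η) * k * log 2 = 2 * (η * k) * log 2 := by ring
    rw [hη2] at h1 h3
    rw [hηk] at h4 h8
    have h9 : s ^ 2 ≤ s ^ 3 := pow_le_pow_right₀ hs1 (by norm_num)
    have h10 : 1 ≤ s ^ 3 := one_le_pow₀ hs1
    generalize (2 - η) * k * log 2 * ∑ w ∈ typ A k η, wwt w = S0 at h1 ⊢
    generalize (2 - η) * log 2 * (2 + 64 * s ^ 2) = Z0 at h1 h3
    generalize (2 + η) * (k : ℝ) * log 2 = a1 at h7 h8
    generalize (2 - η) * (k : ℝ) * log 2 = a2 at h1 h8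
    linarith
  -- averaging
  by_contra hcon
  push Not at hcon
  set J := Icc ((11 * k + 9) / 10) (12 * k / 10) with hJ
  have hMk : 12 * k / 10 < M := by
    have h1 : (12 * (k : ℝ) / 10) < M := by
      have h2 : 2 * log 2 * k ≤ E := by
        rw [hE]
        have : 0 ≤ η * k * log 2 := by positivity
        nlinarith
      have h3 : 12 / 10 * log 3 ≤ 2 * log 2 := by
        have h4 : log ((3 : ℝ) ^ 6) ≤ log ((2 : ℝ) ^ 10) := log_le_log (by norm_num) (by norm_num)
        rw [log_pow, log_pow] at h4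
        push_cast at h4
        linarith
      have h5 : 12 * (k : ℝ) / 10 * log 3 < M * log 3 := by
        calc 12 * (k : ℝ) / 10 * log 3 = (12 / 10 * log 3) * k := by ring
          _ ≤ (2 * log 2) * k := by gcongr
          _ ≤ E := h2
          _ < M * log 3 := hM1
      exact lt_of_mul_lt_mul_right h5 hl3.le
    have h2 : ((12 * k / 10 : ℕ) : ℝ) ≤ 12 * k / 10 := by
      have := Nat.cast_div_le (α := ℝ) (m := 12 * k) (n := 10)
      push_cast at this
      exact this
    exact_mod_cast h2.trans_lt h1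
  have hJsub : J ⊆ range M := by
    intro j hj
    rw [hJ, Finset.mem_Icc] at hj
    rw [mem_range]
    omega
  have hJcard : (k : ℝ) / 20 ≤ J.card := by
    rw [hJ, Nat.card_Icc]
    rw [div_le_iff₀ (by norm_num)]
    exact_mod_cast (by omega : k ≤ (12 * k / 10 + 1 - (11 * k + 9) / 10) * 20)
  have hJne : J.Nonempty := by
    rw [← Finset.card_pos]
    have : (0 : ℝ) < J.card := by linarith
    exact_mod_cast this
  have h1 : ∑ j ∈ J, (8700 / s : ℝ) < ∑ j ∈ J, gam A k j := by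
    apply Finset.sum_lt_sum_of_nonempty hJne
    intro j hj
    rw [hJ, Finset.mem_Icc] at hj
    exact hcon j (by omega) (by omega)
  rw [Finset.sum_const, nsmul_eq_mul] at h1
  have h2 : ∑ j ∈ J, gam A k j ≤ ∑ j ∈ range M, gam A k j := by
    apply Finset.sum_le_sum_of_subset_of_nonneg hJsub
    intro j _ _
    exact Finset.sum_nonneg fun T _ => Gam_nonneg _ _ fun w _ => (wwt_pos w).le
  have h3 : (k : ℝ) / 20 * (8700 / s) ≤ J.card * (8700 / s) := by gcongr
  have h4 : (k : ℝ) / 20 * (8700 / s) = 435 * s ^ 3 := by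
    rw [← hs4]; field_simp; norm_num
  linarith

theorem gam_lin_pow (r : ℕ) : ∃ C : ℝ, 0 < C ∧ ∃ c : ℝ, 0 < c ∧ c ≤ 1 / 400 ∧ ∀ k : ℕ, 1 ≤ k →
    ∀ i : ℕ, (i : ℝ) ≤ c * k → ∀ A : ℕ, 3 * k ≤ A → (gam A k (k + i)) ^ 4 ≤ C / (k : ℝ) ^ r := by
  induction r with
  | zero =>
    refine ⟨1, one_pos, 1 / 400, by norm_num, le_refl _, fun k hk i hi A hA => ?_⟩
    rw [pow_zero, div_one]
    exact pow_le_one₀ (gam_nonneg _ _ _) (gam_le_one _ _ _)
  | succ r ih =>
    obtain ⟨C, hC, c, hc, hc1, h⟩ := ih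
    refine ⟨520 ^ (r + 1) + 8700 ^ 4 * C * 13 ^ (r + 1), by positivity, c / 13, by positivity,
      by linarith, fun k hk i hi A hA => ?_⟩
    have hkR : (1 : ℝ) ≤ k := by exact_mod_cast hk
    have hk0 : (0 : ℝ) < k := by linarith
    rcases lt_or_ge k 520 with hlt | hge
    · have h1 : (gam A k (k + i)) ^ 4 ≤ 1 := pow_le_one₀ (gam_nonneg _ _ _) (gam_le_one _ _ _)
      refine h1.trans ?_
      rw [le_div_iff₀ (by positivity), one_mul]
      have h2 : (k : ℝ) ^ (r + 1) ≤ 520 ^ (r + 1) := by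
        apply pow_le_pow_left₀ hk0.le
        exact_mod_cast hlt.le
      have h3 : 0 < 8700 ^ 4 * C * 13 ^ (r + 1) := by positivity
      linarith
    · have hi' : 5200 * i ≤ k := by
        have : (5200 : ℝ) * i ≤ k := by
          have : c / 13 * k ≤ 1 / 5200 * k := by
            apply mul_le_mul_of_nonneg_right _ hk0.le
            linarith
          linarith
        exact_mod_cast this
      obtain ⟨k1, hk1⟩ : ∃ k1 : ℕ, k1 = 5 * k / 6 := ⟨_, rfl⟩
      obtain ⟨q, hq1, hq2, hq3⟩ := gam_rate k1 (by omega) A (by omega)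
      obtain ⟨k2, hk2⟩ : ∃ k2 : ℕ, k2 = q - i - k1 := ⟨_, rfl⟩
      have hk2' : k1 + k2 + i = q := by omega
      have hk2b : k ≤ 13 * k2 := by omega
      have hk2pos : 1 ≤ k2 := by omega
      have h1 : gam A k (k + i) ≤ gam A (k1 + k2) (k1 + k2 + i) := gam_anti' (by omega)
      have h2 : gam A (k1 + k2) (k1 + k2 + i) ≤ gam A k1 q * gam A k2 (k2 + i) := by
        have := gam_rec A k1 k2 (k2 + i)
        rw [← add_assoc, hk2'] at this
        rw [hk2']
        exact this
      have hk2R : (0 : ℝ) < k2 := by exact_mod_cast hk2pos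
      have hk2bR : (k : ℝ) ≤ 13 * k2 := by exact_mod_cast hk2b
      have hk1R : (k : ℝ) ≤ 13 * k1 := by exact_mod_cast (by omega : k ≤ 13 * k1)
      have hk1pos : (0 : ℝ) < k1 := by linarith
      have h3 := h k2 hk2pos i (by
        have : c / 13 * k ≤ c / 13 * (13 * k2) := mul_le_mul_of_nonneg_left hk2bR (by positivity)
        have e : c / 13 * (13 * (k2 : ℝ)) = c * k2 := by ring
        linarith) A (by omega)
      have h4 : (gam A k1 q) ^ 4 ≤ 8700 ^ 4 / k1 := by
        have h5 := pow_le_pow_left₀ (gam_nonneg A k1 q) hq3 4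
        rw [div_pow] at h5
        have hs4 : √(√(k1 : ℝ)) ^ 4 = k1 := by
          rw [show √(√(k1 : ℝ)) ^ 4 = (√(√(k1 : ℝ)) ^ 2) ^ 2 by ring,
            Real.sq_sqrt (Real.sqrt_nonneg _), Real.sq_sqrt hk1pos.le]
        rwa [hs4] at h5
      calc (gam A k (k + i)) ^ 4 ≤ (gam A k1 q * gam A k2 (k2 + i)) ^ 4 :=
            pow_le_pow_left₀ (gam_nonneg _ _ _) (h1.trans h2) 4
        _ = (gam A k1 q) ^ 4 * (gam A k2 (k2 + i)) ^ 4 := mul_pow _ _ _
        _ ≤ (8700 ^ 4 / k1) * (C / (k2 : ℝ) ^ r) :=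
            mul_le_mul h4 h3 (pow_nonneg (gam_nonneg _ _ _) 4) (by positivity)
        _ ≤ (8700 ^ 4 * 13 / k) * (C * 13 ^ r / (k : ℝ) ^ r) := by
            apply mul_le_mul _ _ (by positivity) (by positivity)
            · rw [div_le_div_iff₀ hk1pos hk0]
              nlinarith
            · rw [div_le_div_iff₀ (by positivity) (by positivity), mul_assoc, ← mul_pow]
              apply mul_le_mul_of_nonneg_left _ hC.le
              exact pow_le_pow_left₀ hk0.le hk2bR r
        _ = (8700 ^ 4 * C * 13 ^ (r + 1)) / (k : ℝ) ^ (r + 1) := by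
            field_simp
            ring
        _ ≤ _ := by
            apply div_le_div_of_nonneg_right _ (by positivity)
            have : (0 : ℝ) < 520 ^ (r + 1) := by positivity
            linarith

/-- superpolynomial decay, linearly far beyond the diagonal -/
theorem gam_lin (B : ℕ) : ∃ C : ℝ, 0 < C ∧ ∃ c : ℝ, 0 < c ∧ c ≤ 1 / 400 ∧ ∀ k : ℕ, 1 ≤ k →
    ∀ i : ℕ, (i : ℝ) ≤ c * k → ∀ A : ℕ, 3 * k ≤ A → gam A k (k + i) ≤ C / (k : ℝ) ^ B := by
  obtain ⟨C, hC, c, hc, hc1, h⟩ := gam_lin_pow (4 * B)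
  refine ⟨C + 1, by positivity, c, hc, hc1, fun k hk i hi A hA => ?_⟩
  have h1 := h k hk i hi A hA
  have hkR : (0 : ℝ) < k := by exact_mod_cast hk
  have h2 : C / (k : ℝ) ^ (4 * B) ≤ ((C + 1) / (k : ℝ) ^ B) ^ 4 := by
    rw [div_pow, ← pow_mul, mul_comm B 4]
    apply div_le_div_of_nonneg_right _ (by positivity)
    have : 1 ≤ C + 1 := by linarith
    calc C ≤ (C + 1) ^ 1 := by linarith
      _ ≤ (C + 1) ^ 4 := pow_le_pow_right₀ this (by norm_num)
  exact le_of_pow_le_pow_left₀ (by norm_num) (by positivity) (h1.trans h2)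

/-- all digits from `m'` to `k + m` -/
theorem gam_all_lin (B : ℕ) : ∃ C : ℝ, 0 < C ∧ ∃ c : ℝ, 0 < c ∧ c ≤ 1 / 400 ∧ ∀ k m m' A J : ℕ,
    1 ≤ k → 1 ≤ m' → m' ≤ k → (m : ℝ) ≤ c * k → 3 * k ≤ A →
    m' ≤ J → J < k + m → gam A k J ≤ C * (1 / (m' : ℝ)) ^ B := by
  obtain ⟨C, hC, c, hc, hc1, h⟩ := gam_lin B
  refine ⟨C, hC, c, hc, hc1, fun k m m' A J hk hm' hmk hm hA hJ hJk => ?_⟩
  have hkR : (0 : ℝ) < k := by exact_mod_cast hk
  have hm'R : (0 : ℝ) < m' := by exact_mod_cast hm'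
  have key : ∀ x : ℝ, (m' : ℝ) ≤ x → C / x ^ B ≤ C * (1 / (m' : ℝ)) ^ B := by
    intro x hx
    rw [one_div, inv_pow, ← div_eq_mul_inv]
    apply div_le_div_of_nonneg_left hC.le (by positivity)
    exact pow_le_pow_left₀ hm'R.le hx B
  rcases lt_or_ge J k with hlt | hge
  · have h1 : gam A k J ≤ gam A J J := by
      obtain ⟨a, rfl⟩ := Nat.exists_eq_add_of_le hlt.le
      calc gam A (J + a) J ≤ gam A J (J + 0) * gam A a 0 := gam_rec A J a 0
        _ ≤ gam A J (J + 0) * 1 :=
            mul_le_mul_of_nonneg_left (gam_le_one _ _ _) (gam_nonneg _ _ _)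
        _ = _ := by rw [mul_one, add_zero]
    have hJ1 : 1 ≤ J := hm'.trans hJ
    have h2 := h J hJ1 0 (by simp; positivity) A (by omega)
    rw [add_zero] at h2
    exact (h1.trans h2).trans (key J (by exact_mod_cast hJ))
  · obtain ⟨i, rfl⟩ := Nat.exists_eq_add_of_le hge
    have him : (i : ℝ) ≤ m := by
      have : i ≤ m := by omega
      exact_mod_cast this
    exact (h k hk i (him.trans hm) A hA).trans (key k (by exact_mod_cast hmk))

end Pool.Agent.H319R3.LV
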