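import Pool.Agent.H319R3.LV.LV9

/-! Level of distribution with time control, positive integers. -/

set_option autoImplicit false
set_option linter.unusedVariables false

namespace Pool.Agent.H319R3.LV

open Pool.Agent.H320R2.PD Pool.Agent.H499R2.ND Finset Filter Topology

theorem Td_Tn (n : ℕ) : Td 1 (n : ℤ) = ((Tn n : ℕ) : ℤ) := by
  unfold Td; simp only [Tn]
  by_cases h : n % 2 = 0
  · rw [if_pos (by omega), if_pos h]; omega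
  · rw [if_neg (by omega), if_neg h]; omega

theorem Td_Tn_iter (i n : ℕ) : (Td 1)^[i] (n : ℤ) = ((Tn^[i] n : ℕ) : ℤ) := by
  induction i generalizing n with
  | zero => simp
  | succ i ih => rw [Function.iterate_succ_apply, Function.iterate_succ_apply, Td_Tn, ih]

/-- LEVEL OF DISTRIBUTION WITH TIME CONTROL for invariant properties of the positive integers -/
theorem level_nat {P F : ℕ → Prop} (hP : ∀ n : ℕ, 1 ≤ n → (P n ↔ P (Tn n)))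
    (hF : ∀ n : ℕ, 1 ≤ n → P n → ∃ i : ℕ, F (Tn^[i] n)) {n0 : ℕ} (hn0 : 1 ≤ n0) (hPn0 : P n0) :
    ∃ l : ℝ, 0 < l ∧ l ≤ 1 ∧
      Tendsto (fun N : ℕ => ({n : ℕ | 1 ≤ n ∧ n ≤ N ∧ P n}.ncard : ℝ) / N) atTop (𝓝 l) ∧
      ∀ η : ℝ, 0 < η → ∃ c : ℝ, 0 < c ∧ ∀ ε : ℝ, 0 < ε → ∃ N0 : ℕ, ∀ N : ℕ, N0 ≤ N → ∀ j m a : ℕ,
        (2 : ℝ) ^ j * 3 ^ m ≤ (N : ℝ) ^ c →
        |({n : ℕ | 1 ≤ n ∧ n ≤ N ∧ n ≡ a [MOD 2 ^ j * 3 ^ m] ∧ P n}.ncard : ℝ)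
          - l * ((N : ℝ) / (2 ^ j * 3 ^ m))| ≤ ε * ((N : ℝ) / (2 ^ j * 3 ^ m)) ∧
        |({n : ℕ | 1 ≤ n ∧ n ≤ N ∧ n ≡ a [MOD 2 ^ j * 3 ^ m] ∧ P n ∧
            ∃ i : ℕ, (i : ℝ) ≤ (2 / Real.log (4 / 3) + η) * Real.log n ∧ F (Tn^[i] n)}.ncard : ℝ)
          - l * ((N : ℝ) / (2 ^ j * 3 ^ m))| ≤ ε * ((N : ℝ) / (2 ^ j * 3 ^ m)) := by
  obtain ⟨l, hl0, hl1, hl⟩ := dens_side odd_one isCoprime_one_left (Or.inl rfl : (1 : ℤ) = 1 ∨ _) (NS_inv hP)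
  have hlpos : 0 < l := by
    refine one_pos (Or.inl rfl) (NS_inv hP) (a := (n0 : ℤ)) ⟨by exact_mod_cast hn0, by simpa using hPn0⟩ ?_ hl
    rw [one_mul]; exact_mod_cast hn0
  refine ⟨l, hlpos, hl1, ?_, ?_⟩
  · refine (HD_ncard (Or.inl rfl) hl).congr fun N => ?_
    rw [NS_ncard]
  intro η hη
  obtain ⟨c, hc, h⟩ := level_timed odd_one isCoprime_one_left hη
  refine ⟨c, hc, fun ε hε => ?_⟩
  obtain ⟨N0, hN0⟩ := h 1 (Or.inl rfl) (NS P) {x : ℤ | F x.toNat} (NS_inv hP) (by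
    rintro x ⟨hx1, hx2⟩
    obtain ⟨n, rfl⟩ : ∃ n : ℕ, x = n := ⟨x.toNat, (Int.toNat_of_nonneg (by omega)).symm⟩
    rw [Int.toNat_natCast] at hx2
    obtain ⟨i, hi⟩ := hF n (by omega) hx2
    refine ⟨i, ?_⟩
    rw [Td_Tn_iter]
    exact hi) l hl ε hε
  refine ⟨N0, fun N hN j m a hjm => ?_⟩
  obtain ⟨h1, h2⟩ := hN0 N hN j m hjm (a : ℤ)
  have hmod : ∀ n : ℕ, ((2 ^ j * 3 ^ m : ℤ) ∣ (n : ℤ) - a) ↔ n ≡ a [MOD 2 ^ j * 3 ^ m] := by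
    intro n
    rw [Nat.ModEq.comm, Nat.modEq_iff_dvd]
    push_cast
    rfl
  have e1 : {n : ℤ | 0 < 1 * n ∧ 1 * n ≤ N ∧ n ∈ NS P ∧ (2 ^ j * 3 ^ m : ℤ) ∣ n - (a : ℤ)}.ncard
      = {n : ℕ | 1 ≤ n ∧ n ≤ N ∧ n ≡ a [MOD 2 ^ j * 3 ^ m] ∧ P n}.ncard := by
    have : {n : ℤ | 0 < 1 * n ∧ 1 * n ≤ N ∧ n ∈ NS P ∧ (2 ^ j * 3 ^ m : ℤ) ∣ n - (a : ℤ)}
        = (fun n : ℕ => (n : ℤ)) '' {n : ℕ | 1 ≤ n ∧ n ≤ N ∧ n ≡ a [MOD 2 ^ j * 3 ^ m] ∧ P n} := by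
      ext x
      rw [Set.mem_image]
      constructor
      · rintro ⟨h3, h4, ⟨h5, h6⟩, h7⟩
        obtain ⟨n, rfl⟩ : ∃ n : ℕ, x = n := ⟨x.toNat, (Int.toNat_of_nonneg (by omega)).symm⟩
        exact ⟨n, ⟨by omega, by omega, (hmod n).1 h7, by simpa using h6⟩, rfl⟩
      · rintro ⟨n, ⟨h3, h4, h5, h6⟩, rfl⟩
        exact ⟨by omega, by omega, ⟨by omega, by simpa using h6⟩, (hmod n).2 h5⟩
    rw [this, Set.ncard_image_of_injective _ Nat.cast_injective]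
  have e2 : {n : ℤ | 0 < 1 * n ∧ 1 * n ≤ N ∧ n ∈ NS P ∧ (2 ^ j * 3 ^ m : ℤ) ∣ n - (a : ℤ) ∧
        ∃ i : ℕ, (i : ℝ) ≤ (2 / Real.log (4 / 3) + η) * Real.log |(n : ℝ)| ∧ (Td 1)^[i] n ∈ {x : ℤ | F x.toNat}}.ncard
      = {n : ℕ | 1 ≤ n ∧ n ≤ N ∧ n ≡ a [MOD 2 ^ j * 3 ^ m] ∧ P n ∧
            ∃ i : ℕ, (i : ℝ) ≤ (2 / Real.log (4 / 3) + η) * Real.log n ∧ F (Tn^[i] n)}.ncard := by
    have : {n : ℤ | 0 < 1 * n ∧ 1 * n ≤ N ∧ n ∈ NS P ∧ (2 ^ j * 3 ^ m : ℤ) ∣ n - (a : ℤ) ∧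
        ∃ i : ℕ, (i : ℝ) ≤ (2 / Real.log (4 / 3) + η) * Real.log |(n : ℝ)| ∧ (Td 1)^[i] n ∈ {x : ℤ | F x.toNat}}
        = (fun n : ℕ => (n : ℤ)) '' {n : ℕ | 1 ≤ n ∧ n ≤ N ∧ n ≡ a [MOD 2 ^ j * 3 ^ m] ∧ P n ∧
            ∃ i : ℕ, (i : ℝ) ≤ (2 / Real.log (4 / 3) + η) * Real.log n ∧ F (Tn^[i] n)} := by
      have key : ∀ n : ℕ, (∃ i : ℕ, (i : ℝ) ≤ (2 / Real.log (4 / 3) + η) * Real.log |((n : ℤ) : ℝ)| ∧
          (Td 1)^[i] (n : ℤ) ∈ {x : ℤ | F x.toNat}) ↔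
          ∃ i : ℕ, (i : ℝ) ≤ (2 / Real.log (4 / 3) + η) * Real.log n ∧ F (Tn^[i] n) := by
        intro n
        have h0 : |((n : ℤ) : ℝ)| = n := by
          rw [Int.cast_natCast, abs_of_nonneg (Nat.cast_nonneg _)]
        rw [h0]
        apply exists_congr
        intro i
        rw [Td_Tn_iter]
        exact Iff.rfl
      ext x
      rw [Set.mem_image]
      constructor
      · rintro ⟨h3, h4, ⟨h5, h6⟩, h7, h8⟩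
        obtain ⟨n, rfl⟩ : ∃ n : ℕ, x = n := ⟨x.toNat, (Int.toNat_of_nonneg (by omega)).symm⟩
        exact ⟨n, ⟨by omega, by omega, (hmod n).1 h7, by simpa using h6, (key n).1 h8⟩, rfl⟩
      · rintro ⟨n, ⟨h3, h4, h5, h6, h7⟩, rfl⟩
        exact ⟨by omega, by omega, ⟨by omega, by simpa using h6⟩, (hmod n).2 h5, (key n).2 h7⟩
    rw [this, Set.ncard_image_of_injective _ Nat.cast_injective]
  rw [e1] at h1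
  rw [e2] at h2
  exact ⟨h1, h2⟩

end Pool.Agent.H319R3.LV
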