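import Pool.Agent.H319R3.LV.LV5

/-! Level of distribution: counting form. -/

set_option autoImplicit false
set_option linter.unusedVariables false

namespace Pool.Agent.H319R3.LV

open Pool.Agent.H320R2.PD Pool.Agent.H499R2.ND Finset Filter Topology

/-- counts in a class on the side `s` -/
theorem ncard_class {s : ℤ} (hs : s = 1 ∨ s = -1) (S : Set ℤ) (N : ℕ) (q a : ℤ) :
    ({n : ℤ | 0 < s * n ∧ s * n ≤ N ∧ n ∈ S ∧ q ∣ n - a}.ncard : ℝ)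
      = (wc {x | s * x ∈ S} 1 ((N : ℝ) + 1) q (s * a)).card := by
  have h1 := ncard_side hs {n : ℤ | n ∈ S ∧ q ∣ n - a} N
  have h2 : {n : ℤ | 0 < s * n ∧ s * n ≤ N ∧ n ∈ S ∧ q ∣ n - a}
      = {n : ℤ | 0 < s * n ∧ s * n ≤ N ∧ n ∈ {n : ℤ | n ∈ S ∧ q ∣ n - a}} := rfl
  rw [h2, h1]
  unfold G
  have h3 : pos {x | s * x ∈ {n : ℤ | n ∈ S ∧ q ∣ n - a}} ((N : ℝ) + 1)
      = wc {x | s * x ∈ S} 1 ((N : ℝ) + 1) q (s * a) := by
    ext x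
    rw [mem_pos, mem_wc]
    have h4 : q ∣ s * x - a ↔ q ∣ x - s * a := by
      rcases hs with rfl | rfl
      · simp
      · rw [show (-1 : ℤ) * x - a = -(x - -1 * a) by ring, dvd_neg]
    constructor
    · rintro ⟨⟨h5, h6⟩, h7, h8⟩
      exact ⟨⟨by exact_mod_cast h5, h6⟩, h7, h4.1 h8⟩
    · rintro ⟨⟨h5, h6⟩, h7, h8⟩
      exact ⟨⟨by exact_mod_cast h5, h6⟩, h7, h4.2 h8⟩
  rw [h3]

/-- LEVEL OF DISTRIBUTION, one side -/
theorem level_side {d : ℤ} (hd : Odd d) (hd3 : IsCoprime d 3) : ∃ c : ℝ, 0 < c ∧ c ≤ 1 / 16000 ∧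
    ∀ s : ℤ, (s = 1 ∨ s = -1) → ∀ S : Set ℤ, Inv d S → ∀ l : ℝ, HD s S l →
    ∀ ε : ℝ, 0 < ε → ∃ N0 : ℕ, 1 ≤ N0 ∧ ∀ N : ℕ, N0 ≤ N → ∀ j m : ℕ,
      (2 : ℝ) ^ j * 3 ^ m ≤ (N : ℝ) ^ c → ∀ a : ℤ,
      |({n : ℤ | 0 < s * n ∧ s * n ≤ N ∧ n ∈ S ∧ (2 ^ j * 3 ^ m : ℤ) ∣ n - a}.ncard : ℝ)
          - l * ((N : ℝ) / (2 ^ j * 3 ^ m))| ≤ ε * ((N : ℝ) / (2 ^ j * 3 ^ m)) := by
  have key : ∀ s : ℤ, (s = 1 ∨ s = -1) → ∃ c : ℝ, 0 < c ∧ c ≤ 1 / 16000 ∧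
      ∀ S : Set ℤ, Inv d S → ∀ l : ℝ, HD s S l →
      ∀ ε : ℝ, 0 < ε → ∃ N0 : ℕ, 1 ≤ N0 ∧ ∀ N : ℕ, N0 ≤ N → ∀ j m : ℕ,
        Real.log (2 ^ j * 3 ^ m) ≤ c * Real.log N → ∀ a : ℤ,
        |({n : ℤ | 0 < s * n ∧ s * n ≤ N ∧ n ∈ S ∧ (2 ^ j * 3 ^ m : ℤ) ∣ n - a}.ncard : ℝ)
            - l * ((N : ℝ) / (2 ^ j * 3 ^ m))| ≤ ε * ((N : ℝ) / (2 ^ j * 3 ^ m)) := by
    intro s hs
    obtain ⟨c, hc, hc1, h⟩ := level_X (side_odd hd hs) (side_cop hd3 hs)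
    refine ⟨c, hc, hc1, ?_⟩
    intro S hS l hl ε hε
    obtain ⟨X0, hX0, hX⟩ := h {x | s * x ∈ S} (side_inv hd hs hS) l hl (ε / 3) (by positivity)
    have hl0 : 0 ≤ l := by
      apply ge_of_tendsto hl
      filter_upwards [eventually_gt_atTop (0 : ℝ)] with X hX
      exact div_nonneg (G_nonneg _ _) hX.le
    have hl1 : l ≤ 1 := by
      apply le_of_tendsto hl
      filter_upwards [eventually_gt_atTop (0 : ℝ)] with X hX
      rw [div_le_one hX]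
      exact pos_card_le _ hX.le
    obtain ⟨N0, hN0⟩ := exists_nat_ge (max X0 (3 / ε))
    have hN01 : X0 ≤ N0 := (le_max_left _ _).trans hN0
    have hN02 : 3 / ε ≤ N0 := (le_max_right _ _).trans hN0
    refine ⟨N0, by exact_mod_cast hX0.trans hN01, ?_⟩
    intro N hN j m hjm a
    have hNR : (N0 : ℝ) ≤ N := by exact_mod_cast hN
    have hN1 : (1 : ℝ) ≤ N := (hX0.trans hN01).trans hNR
    rw [ncard_class hs S N]
    have h1 := hX ((N : ℝ) + 1) (by linarith) j m (hjm.trans (mul_le_mul_of_nonneg_left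
      (Real.log_le_log (by linarith) (by linarith)) hc.le)) (s * a)
    set q : ℝ := 2 ^ j * 3 ^ m with hq
    have hq0 : 0 < q := by positivity
    have e1 : ((N : ℝ) + 1) / q = N / q + 1 / q := by ring
    rw [e1] at h1
    have e2 : 1 / q ≤ ε / 3 * (N / q) := by
      rw [mul_div_assoc']
      apply div_le_div_of_nonneg_right _ hq0.le
      have : 3 / ε ≤ N := hN02.trans hNR
      rw [div_le_iff₀ hε] at this
      linarith
    have e3 : 1 / q ≤ N / q := div_le_div_of_nonneg_right hN1 hq0.le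
    have e4 : 0 < 1 / q := by positivity
    have e5 : l * (1 / q) ≤ 1 / q := mul_le_of_le_one_left e4.le hl1
    have e6 : 0 ≤ l * (1 / q) := by positivity
    have e7 : ε / 3 * (1 / q) ≤ ε / 3 * (N / q) := mul_le_mul_of_nonneg_left e3 (by positivity)
    rw [mul_add, mul_add] at h1
    rw [abs_le] at h1 ⊢
    constructor
    · linarith [h1.1]
    · linarith [h1.2]
  obtain ⟨c1, hc1, hc1', h1⟩ := key 1 (Or.inl rfl)
  obtain ⟨c2, hc2, hc2', h2⟩ := key (-1) (Or.inr rfl)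
  refine ⟨min c1 c2, lt_min hc1 hc2, (min_le_left _ _).trans hc1', ?_⟩
  intro s hs S hS l hl ε hε
  have hfin : ∀ c' : ℝ, min c1 c2 ≤ c' → ∀ N : ℕ, 1 ≤ N → ∀ j m : ℕ,
      (2 : ℝ) ^ j * 3 ^ m ≤ (N : ℝ) ^ (min c1 c2) → Real.log (2 ^ j * 3 ^ m) ≤ c' * Real.log N := by
    intro c' hc' N hN j m hjm
    have hN1 : (1 : ℝ) ≤ N := by exact_mod_cast hN
    have h3 := Real.log_le_log (by positivity) hjm
    rw [Real.log_rpow (by linarith)] at h3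
    exact h3.trans (mul_le_mul_of_nonneg_right hc' (Real.log_nonneg hN1))
  rcases hs with rfl | rfl
  · obtain ⟨N0, hN0, h⟩ := h1 S hS l hl ε hε
    exact ⟨N0, hN0, fun N hN j m hjm a => h N hN j m (hfin c1 (min_le_left _ _) N (hN0.trans hN) j m hjm) a⟩
  · obtain ⟨N0, hN0, h⟩ := h2 S hS l hl ε hε
    exact ⟨N0, hN0, fun N hN j m hjm a => h N hN j m (hfin c2 (min_le_right _ _) N (hN0.trans hN) j m hjm) a⟩

end Pool.Agent.H319R3.LV
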