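import Pool.Agent.H319R3.LV.LV4
import Pool.Agent.H499R2.NDTime

/-! Timed descent in arithmetic progressions: odd integers, classes mod `3^m`, `m` linear in the
logarithm. -/

set_option autoImplicit false
set_option linter.unusedVariables false

namespace Pool.Agent.H319R3.LV

open Pool.Agent.H320R2.PD Pool.Agent.H499R2.ND Finset Filter Topology

theorem errN_lin (N : ℕ) (hN : 20 ≤ N) (B : ℕ) (d : ℤ) : ∃ C : ℝ, 0 < C ∧ ∃ c : ℝ, 0 < c ∧
    c ≤ 1 / 1000 ∧ ∀ A : ℝ, 0 < A →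
    1000 ≤ Real.log A → ∀ k m m' : ℕ,
    (m : ℝ) ≤ c * Real.log A → k = ⌊Real.log A / 2⌋₊ → m' = ⌊Real.sqrt (0.8 * Real.log A)⌋₊ →
    ErrN N d A k m m' ≤ C / (Real.log A) ^ B := by
  obtain ⟨C, hC, c, hc, hc1, h⟩ := err_lin B d
  have hNR : (20 : ℝ) ≤ N := by exact_mod_cast hN
  set a : ℝ := 64 * (N : ℝ) ^ 2 with ha
  have ha0 : 0 < a := by positivity
  refine ⟨C + 4 * (B.factorial * a ^ B), by positivity, c, hc, hc1, ?_⟩
  intro A hA ht k m m' hm hk hm'
  have h1 := h A hA ht k m m' hm hk hm'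
  set t := Real.log A with htdef
  have htpos : 0 < t := by linarith
  have hk2 : t / 2 - 1 ≤ k := by rw [hk]; linarith [Nat.lt_floor_add_one (t / 2)]
  have h2 := mass_GWN N k hN
  have h3 := exp_neg_le B ha0 htpos
  have h4 : 3 * Real.exp (-((1 / (N : ℝ)) ^ 2 * k / 32)) ≤ 4 * Real.exp (-(t / a)) := by
    have e1 : Real.exp (-((1 / (N : ℝ)) ^ 2 * k / 32)) ≤ Real.exp (1 / 12800) * Real.exp (-(t / a)) := by
      rw [← Real.exp_add]
      apply Real.exp_le_exp.2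
      have e2 : (1 / (N : ℝ)) ^ 2 * k / 32 ≥ (1 / (N : ℝ)) ^ 2 * (t / 2 - 1) / 32 := by
        have : (1 / (N : ℝ)) ^ 2 * (t / 2 - 1) ≤ (1 / (N : ℝ)) ^ 2 * k :=
          mul_le_mul_of_nonneg_left hk2 (by positivity)
        linarith
      have e3 : (1 / (N : ℝ)) ^ 2 * (t / 2 - 1) / 32 = t / a - (1 / (N : ℝ)) ^ 2 / 32 := by
        rw [ha]; field_simp; ring
      have e4 : (1 / (N : ℝ)) ^ 2 ≤ 1 / 400 := by
        rw [one_div, inv_pow, ← one_div]
        apply one_div_le_one_div_of_le (by norm_num)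
        nlinarith
      linarith
    have e5 : Real.exp (1 / 12800) ≤ 4 / 3 := by
      have := Real.exp_bound_div_one_sub_of_interval (x := 1 / 12800) (by norm_num) (by norm_num)
      refine this.trans (by norm_num)
    have e6 := Real.exp_pos (-(t / a))
    nlinarith
  unfold ErrN
  have h5 : (C + 4 * (B.factorial * a ^ B)) / t ^ B = C / t ^ B + 4 * ((B.factorial * a ^ B) / t ^ B) := by ring
  rw [h5]
  linarith

/-- the orbits which stay outside `[-y,y]` during `τ` steps: odd integers, classes mod `3^m`, `m`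
linear in the logarithm -/
theorem stay_lin {N : ℕ} (hN : 20 ≤ N) (B : ℕ) (hB : 1 ≤ B) {d : ℤ} (hd : Odd d)
    (hd3 : IsCoprime d 3) :
    ∃ K : ℝ, 0 < K ∧ ∃ c : ℝ, 0 < c ∧ c ≤ 1 / 1000 ∧
      ∀ y : ℝ, 0 < y → 1000 ≤ Real.log (y / 2) → ∀ τ : ℕ, ∀ A : ℝ, 0 < A →
      kap N * Real.log A ≤ τ → ∀ m : ℕ, (y / 2 < A → (m : ℝ) ≤ c * Real.log A) →
        PB (TS d y τ) A m (K / (Real.log (y / 2)) ^ B) := by
  obtain ⟨K, hK, h⟩ := all_scalesT hN B hB hd hd3
  obtain ⟨C, hC, c, hc, hc1, herr⟩ := errN_lin N hN B d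
  refine ⟨K + C, by positivity, c, hc, hc1, ?_⟩
  intro y hy hy0 τ A hA hτ m hm
  have hkap := kap_ge hN
  have hlogy : 0 < Real.log (y / 2) := by linarith
  rcases le_or_gt A (y / 2) with hAy | hAy
  · -- empty
    intro u v hu
    have : cls (TS d y τ) A (2 * A) m u v = ∅ := by
      rw [Finset.eq_empty_iff_forall_notMem]
      intro x hx
      rw [mem_cls] at hx
      have hx0 : (0 : ℝ) < x := by linarith [hx.1.1]
      have h1 := hx.2.2.1 0 (Nat.zero_le _)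
      rw [Function.iterate_zero, id, abs_of_pos hx0] at h1
      linarith [hx.1.2]
    rw [this, card_empty, Nat.cast_zero]
    positivity
  have hlogA : Real.log (y / 2) < Real.log A := Real.log_lt_log (by positivity) hAy
  have ht : 1000 ≤ Real.log A := by linarith
  obtain ⟨k, hk⟩ : ∃ k : ℕ, k = ⌊Real.log A / 2⌋₊ := ⟨_, rfl⟩
  obtain ⟨m', hm'⟩ : ∃ m' : ℕ, m' = ⌊Real.sqrt (0.8 * Real.log A)⌋₊ := ⟨_, rfl⟩
  have hk2 : Real.log A / 2 - 1 ≤ k := by rw [hk]; linarith [Nat.lt_floor_add_one (Real.log A / 2)]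
  have hk1N : 1 ≤ k := by
    have : (1 : ℝ) ≤ k := by linarith
    exact_mod_cast this
  have hm'sq : (m' : ℝ) ^ 2 ≤ 0.8 * Real.log A := by
    have h1 : (m' : ℝ) ≤ Real.sqrt (0.8 * Real.log A) := by
      rw [hm']; exact Nat.floor_le (Real.sqrt_nonneg _)
    calc (m' : ℝ) ^ 2 ≤ (Real.sqrt (0.8 * Real.log A)) ^ 2 :=
          pow_le_pow_left₀ (Nat.cast_nonneg _) h1 2
      _ = 0.8 * Real.log A := Real.sq_sqrt (by linarith)
  have hm'k : m' ≤ k := by
    have : (m' : ℝ) ≤ k := by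
      have h0 : (0 : ℝ) ≤ m' := Nat.cast_nonneg _
      by_contra hcon
      push Not at hcon
      nlinarith
    exact_mod_cast this
  have key : ∀ T : ℕ, (2 * N - 1) * k ≤ N * T → N * T ≤ (2 * N + 1) * k →
      T ≤ τ ∧ 0 < A * 3 ^ k / 2 ^ T ∧ kap N * Real.log (A * 3 ^ k / 2 ^ T) ≤ ((τ - T : ℕ) : ℝ) ∧
        (m' : ℝ) ^ 2 ≤ Real.log (A * 3 ^ k / 2 ^ T) := by
    intro T h1 h2
    have hsp := spread20 hN h1 h2
    have hn := next_scale hA ht hk hsp.1 hsp.2
    have h3 := kap_word hN h1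
    have h4 := log_next hA k T
    have h5 : kap N * Real.log (A * 3 ^ k / 2 ^ T) ≤ τ - T := by
      rw [h4]
      nlinarith
    have h6 : 0 ≤ kap N * Real.log (A * 3 ^ k / 2 ^ T) := by
      apply mul_nonneg (by linarith)
      linarith [hn.1]
    have h7 : T ≤ τ := by
      have : (T : ℝ) ≤ τ := by linarith
      exact_mod_cast this
    refine ⟨h7, by positivity, ?_, by linarith [hn.1]⟩
    rw [Nat.cast_sub h7]; exact h5
  have hst := stageG hN hd hd3 (S := TS d y τ) (fun T => TS d y (τ - T)) hA hk1N hm'k (m := m)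
    (ρ := K / (Real.log (y / 2)) ^ B) (by positivity)
    (by
      intro w hw M x hM hx _ _ hMS hV
      rw [mem_GWN (by omega)] at hw
      exact TS_word hd (FW_props hw.1).2 hM hx hMS hV (key w.sum hw.2.1 hw.2.2).1)
    (by
      intro T h1 h2
      obtain ⟨h3, h4, h5, h6⟩ := key T h1 h2
      exact h y hy hy0 (τ - T) _ h4 h5 m' (fun _ => h6))
  have hE := herr A hA ht k m m' (hm hAy) hk hm'
  have hE2 : C / Real.log A ^ B ≤ C / Real.log (y / 2) ^ B :=
    div_le_div_of_nonneg_left hC.le (by positivity) (pow_le_pow_left₀ hlogy.le hlogA.le B)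
  intro u v hu
  refine (hst u v hu).trans ?_
  apply mul_le_mul_of_nonneg_right _ (by positivity)
  rw [add_div]
  linarith

/-- halving -/
theorem TS_half {d : ℤ} {y : ℝ} {τ : ℕ} {x : ℤ} (h : 2 * x ∈ TS d y (τ + 1)) : x ∈ TS d y τ := by
  intro j hj
  have := h (j + 1) (by omega)
  rwa [Function.iterate_succ_apply, Td_two] at this

theorem TS_iter {d : ℤ} {y : ℝ} {τ j : ℕ} (hj : j ≤ τ) {x : ℤ} (h : x ∈ TS d y τ) :
    (Td d)^[j] x ∈ TS d y (τ - j) := by
  intro i hi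
  have := h (i + j) (by omega)
  rwa [Function.iterate_add_apply] at this

/-- all integers of a window, from the odd ones -/
theorem wc_TS (d : ℤ) (y : ℝ) (m : ℕ) {ρ : ℝ} (n : ℕ) : ∀ A : ℝ, 0 < A → ∀ τ : ℕ, n ≤ τ →
    (∀ i < n, PB (TS d y (τ - i)) (A / 2 ^ i) m ρ) → ∀ c : ℤ,
    ((wc (TS d y τ) A (2 * A) (3 ^ m) c).card : ℝ) ≤ |ρ| * (A / 3 ^ m) + (A / 2 ^ n / 3 ^ m + 1) := by
  induction n with
  | zero =>
    intro A hA τ _ _ c
    have h1 := wc_card_le (TS d y τ) (by linarith : A ≤ 2 * A) (q := 3 ^ m) (by positivity) c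
    push_cast at h1
    rw [show 2 * A - A = A by ring] at h1
    have : 0 ≤ |ρ| * (A / 3 ^ m) := by positivity
    rw [pow_zero, div_one]
    linarith
  | succ n ih =>
    intro A hA τ hn h c
    obtain ⟨τ', rfl⟩ : ∃ τ', τ = τ' + 1 := ⟨τ - 1, by omega⟩
    classical
    have h1 : (wc (TS d y (τ' + 1)) A (2 * A) (3 ^ m) c).card ≤ (cls (TS d y (τ' + 1)) A (2 * A) m 1 c).card
        + (wc (TS d y τ') (A / 2) (2 * (A / 2)) (3 ^ m) (c * ((3 ^ m + 1) / 2))).card := by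
      have hsub : wc (TS d y (τ' + 1)) A (2 * A) (3 ^ m) c ⊆ cls (TS d y (τ' + 1)) A (2 * A) m 1 c
          ∪ (wc (TS d y τ') (A / 2) (2 * (A / 2)) (3 ^ m) (c * ((3 ^ m + 1) / 2))).image (fun x => 2 * x) := by
        intro x hx
        rw [mem_wc] at hx
        rw [mem_union, mem_cls, mem_image]
        rcases Int.even_or_odd x with he | ho
        · right
          obtain ⟨t, ht⟩ := he
          refine ⟨t, ?_, by omega⟩
          have hxt : (x : ℝ) = 2 * t := by rw [ht]; push_cast; ring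
          rw [mem_wc]
          refine ⟨⟨by linarith [hx.1.1], by linarith [hx.1.2]⟩, ?_, ?_⟩
          · apply TS_half; rw [show 2 * t = x by omega]; exact hx.2.1
          · rw [← dvd_half, show 2 * t = x by omega]; exact hx.2.2
        · left
          refine ⟨hx.1, ho, hx.2.1, ?_⟩
          rw [one_mul]; exact hx.2.2
      refine (card_le_card hsub).trans ((card_union_le _ _).trans ?_)
      exact Nat.add_le_add_left card_image_le _
    have h2 := ih (A / 2) (by positivity) τ' (by omega) (fun i hi => by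
      have h3 := h (i + 1) (by omega)
      have e1 : τ' + 1 - (i + 1) = τ' - i := by omega
      have e2 : A / 2 ^ (i + 1) = A / 2 / 2 ^ i := by rw [pow_succ]; field_simp
      rwa [e1, e2] at h3) (c * ((3 ^ m + 1) / 2))
    have h3 := h 0 (by omega) 1 c isCoprime_one_left
    rw [Nat.sub_zero, pow_zero, div_one] at h3
    have h4 : ρ * (A / (2 * 3 ^ m)) ≤ |ρ| * (A / (2 * 3 ^ m)) :=
      mul_le_mul_of_nonneg_right (le_abs_self ρ) (by positivity)
    have h5 : |ρ| * (A / (2 * 3 ^ m)) + |ρ| * (A / 2 / 3 ^ m) = |ρ| * (A / 3 ^ m) := by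
      field_simp; ring
    have h6 : A / 2 / 2 ^ n / 3 ^ m = A / 2 ^ (n + 1) / 3 ^ m := by rw [pow_succ]; field_simp
    have h1' : ((wc (TS d y (τ' + 1)) A (2 * A) (3 ^ m) c).card : ℝ)
        ≤ (cls (TS d y (τ' + 1)) A (2 * A) m 1 c).card
        + (wc (TS d y τ') (A / 2) (2 * (A / 2)) (3 ^ m) (c * ((3 ^ m + 1) / 2))).card := by
      exact_mod_cast h1
    rw [h6] at h2
    linarith

/-- the first `j` steps on a class mod `2^j 3^m`, with time -/
theorem prefix_TS {d : ℤ} (hd : Odd d) (y : ℝ) (A : ℝ) (j m : ℕ) (a : ℤ) {τ : ℕ} (hj : j ≤ τ) :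
    ∃ o : ℕ, o ≤ j ∧ ∃ z : ℤ, ∃ s : ℝ, |s| ≤ |(d : ℝ)| * 3 ^ o / 2 ∧
      (wc (TS d y τ) A (2 * A) (2 ^ j * 3 ^ m) a).card
        ≤ (wc (TS d y (τ - j)) (3 ^ o / 2 ^ j * A + s) (2 * (3 ^ o / 2 ^ j * A) + s) (3 ^ (o + m)) z).card := by
  obtain ⟨o, hoj, hT, hb⟩ := Td_prefix hd a j
  set z := (Td d)^[j] a with hz
  refine ⟨o, hoj, z, (z : ℝ) - 3 ^ o / 2 ^ j * a, hb, ?_⟩
  have h2j : (0 : ℝ) < 2 ^ j := by positivity
  have h3oZ : (3 : ℤ) ^ o ≠ 0 := by positivity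
  apply card_le_card_of_injOn (fun x => (Td d)^[j] x)
  · intro x hx
    rw [mem_coe, mem_wc] at hx
    obtain ⟨h1, h2, t, ht⟩ := hx
    have hx' : x = a + 2 ^ j * (3 ^ m * t) := by linarith
    have hTx : (Td d)^[j] x = z + 3 ^ o * (3 ^ m * t) := by rw [hx', hT]
    rw [mem_coe, mem_wc]
    beta_reduce
    have e1 : (((Td d)^[j] x : ℤ) : ℝ) - ((z : ℝ) - 3 ^ o / 2 ^ j * a) = 3 ^ o / 2 ^ j * (x : ℝ) := by
      rw [hTx, hx']
      push_cast; field_simp; ring
    have hc : (0 : ℝ) < 3 ^ o / 2 ^ j := by positivity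
    have e2 : 3 ^ o / 2 ^ j * A ≤ 3 ^ o / 2 ^ j * (x : ℝ) := mul_le_mul_of_nonneg_left h1.1 hc.le
    have e3 : 3 ^ o / 2 ^ j * (x : ℝ) < 3 ^ o / 2 ^ j * (2 * A) := mul_lt_mul_of_pos_left h1.2 hc
    refine ⟨⟨by linarith, by linarith⟩, TS_iter hj h2, ?_⟩
    rw [hTx, pow_add]
    exact ⟨t, by ring⟩
  · intro x hx x' hx' h
    rw [mem_coe, mem_wc] at hx hx'
    obtain ⟨_, _, t, ht⟩ := hx
    obtain ⟨_, _, t', ht'⟩ := hx'
    have e1 : x = a + 2 ^ j * (3 ^ m * t) := by linarith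
    have e2 : x' = a + 2 ^ j * (3 ^ m * t') := by linarith
    simp only at h
    rw [e1, e2, hT, hT] at h
    have h3 : (3 : ℤ) ^ o * (3 ^ m * t) = 3 ^ o * (3 ^ m * t') := by linarith
    have h4 := mul_left_cancel₀ h3oZ h3
    rw [e1, e2, h4]

end Pool.Agent.H319R3.LV
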