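import Pool.Agent.H319R3.LV.LV5
import Pool.Agent.H319R3.LV.LV7

/-! Timed descent in arithmetic progressions of modulus `2^j 3^m` up to a power. -/

set_option autoImplicit false
set_option linter.unusedVariables false

namespace Pool.Agent.H319R3.LV

open Pool.Agent.H320R2.PD Pool.Agent.H499R2.ND Finset Filter Topology

/-- one window -/
theorem window_TS {d : ℤ} (hd : Odd d) (hd3 : IsCoprime d 3) {η : ℝ} (hη : 0 < η) : ∃ K : ℝ, 0 < K ∧
    ∃ c₀ : ℝ, 0 < c₀ ∧ c₀ ≤ 1 / 8000 ∧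
    ∀ y : ℝ, 0 < y → 1000 ≤ Real.log (y / 2) → ∀ A : ℝ, 0 < A → ∀ τ : ℕ,
      (2 / Real.log (4 / 3) + η) * Real.log A ≤ τ → ∀ j m : ℕ,
      Real.log (2 ^ j * 3 ^ m) ≤ c₀ * Real.log A → ∀ a : ℤ,
      ((wc (TS d y τ) A (2 * A) (2 ^ j * 3 ^ m) a).card : ℝ)
        ≤ K / Real.log (y / 2) * (A / (2 ^ j * 3 ^ m)) := by
  obtain ⟨N, hN, hkapN⟩ := kap_le (η / 2) (by positivity)
  obtain ⟨K, hK, c, hc, hc1, hst⟩ := stay_lin hN 1 le_rfl hd hd3
  have hkap := kap_ge hN
  set κ := kap N with hκ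
  set c₀ : ℝ := min (min (c / 4) (1 / 8000)) (η / (2 * (κ + 2))) with hc₀
  have hc₀pos : 0 < c₀ := lt_min (lt_min (by positivity) (by norm_num)) (by positivity)
  have hc₀1 : c₀ ≤ c / 4 := (min_le_left _ _).trans (min_le_left _ _)
  have hc₀2 : c₀ ≤ 1 / 8000 := (min_le_left _ _).trans (min_le_right _ _)
  have hc₀3 : c₀ ≤ η / (2 * (κ + 2)) := min_le_right _ _
  refine ⟨K + 4 + 4 * (|(d : ℝ)| + 2), by positivity, c₀, hc₀pos, hc₀2, ?_⟩
  intro y hy hy0 A hA τ hτ j m hjm a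
  have hlogy : 0 < Real.log (y / 2) := by linarith
  have hY : 0 < A / (2 ^ j * 3 ^ m) := by positivity
  rcases le_or_gt A (y / 2) with hAy | hAy
  · have : wc (TS d y τ) A (2 * A) (2 ^ j * 3 ^ m) a = ∅ := by
      rw [Finset.eq_empty_iff_forall_notMem]
      intro x hx
      rw [mem_wc] at hx
      have hx0 : (0 : ℝ) < x := by linarith [hx.1.1]
      have h1 := hx.2.1 0 (Nat.zero_le _)
      rw [Function.iterate_zero, id, abs_of_pos hx0] at h1
      linarith [hx.1.2]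
    rw [this, card_empty, Nat.cast_zero]
    positivity
  set t := Real.log A with htdef
  have hlogA : Real.log (y / 2) < t := Real.log_lt_log (by positivity) hAy
  have ht : 1000 ≤ t := by linarith
  have htpos : 0 < t := by linarith
  have hexpA : Real.exp t = A := Real.exp_log hA
  have hl2 := Real.log_two_gt_d9
  have hl2' := Real.log_two_lt_d9
  have hl3 := log3_ge
  have hl3' := log3_le
  have hlog : (j : ℝ) * Real.log 2 + m * Real.log 3 ≤ c₀ * t := by
    rw [Real.log_mul (by positivity) (by positivity), Real.log_pow, Real.log_pow] at hjm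
    exact hjm
  have hj0 : (0 : ℝ) ≤ j := Nat.cast_nonneg _
  have hm0 : (0 : ℝ) ≤ m := Nat.cast_nonneg _
  have hjm2 : (j : ℝ) + m ≤ 2 * c₀ * t := by
    have h1 : (j : ℝ) / 2 ≤ j * Real.log 2 := by nlinarith
    have h2 : (m : ℝ) / 2 ≤ m * Real.log 3 := by nlinarith
    linarith
  have hc₀t : c₀ * t ≤ t / 8000 := by nlinarith
  have hjt : (j : ℝ) ≤ t / 4000 := by linarith
  have hj2 : (j : ℝ) * Real.log 2 ≤ t / 8000 := by
    have h2 : 0 ≤ (m : ℝ) * Real.log 3 := by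
      apply mul_nonneg hm0; linarith
    linarith
  -- number of halvings
  obtain ⟨n, hn⟩ : ∃ n : ℕ, n = ⌊t / 4⌋₊ := ⟨_, rfl⟩
  have hn1 : (n : ℝ) ≤ t / 4 := by rw [hn]; exact Nat.floor_le (by linarith)
  have hn2 : t / 4 < n + 1 := by rw [hn]; exact Nat.lt_floor_add_one _
  have hτ2 : (κ + η / 2) * t ≤ τ := by
    have : (κ + η / 2) * t ≤ (2 / Real.log (4 / 3) + η) * t := by
      apply mul_le_mul_of_nonneg_right _ htpos.le
      linarith
    linarith
  have hτ3 : 2 * t ≤ τ := by nlinarith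
  have hjτ : j ≤ τ := by
    have : (j : ℝ) ≤ τ := by linarith
    exact_mod_cast this
  have hnτ : n ≤ τ - j := by
    have : (n : ℝ) + j ≤ τ := by linarith
    have : n + j ≤ τ := by exact_mod_cast this
    omega
  obtain ⟨o, hoj, z, s, hs, hcard⟩ := prefix_TS hd y A j m a hjτ
  set L : ℝ := 3 ^ o / 2 ^ j * A with hL
  have hLpos : 0 < L := by positivity
  have hoR : (o : ℝ) ≤ j := by exact_mod_cast hoj
  have ho0 : (0 : ℝ) ≤ o := Nat.cast_nonneg _
  have hlogL : Real.log L = t + o * Real.log 3 - j * Real.log 2 := by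
    rw [hL, Real.log_mul (by positivity) hA.ne', Real.log_div (by positivity) (by positivity),
      Real.log_pow, Real.log_pow]
    ring
  have hlogL1 : Real.log L ≤ t + j / 2 := by
    rw [hlogL]
    have : (o : ℝ) * Real.log 3 ≤ j * Real.log 3 := mul_le_mul_of_nonneg_right hoR (by linarith)
    have : (j : ℝ) * (Real.log 3 - Real.log 2) ≤ j * (1 / 2) := by
      apply mul_le_mul_of_nonneg_left _ hj0
      linarith
    nlinarith
  have hlogL2 : t - t / 8000 ≤ Real.log L := by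
    rw [hlogL]
    have : 0 ≤ (o : ℝ) * Real.log 3 := mul_nonneg ho0 (by linarith)
    linarith
  have hlogLi : ∀ i : ℕ, Real.log (L / 2 ^ i) = Real.log L - i * Real.log 2 := by
    intro i
    rw [Real.log_div hLpos.ne' (by positivity), Real.log_pow]
  -- the odd parts
  have hPB : ∀ i < n, PB (TS d y (τ - j - i)) (L / 2 ^ i) (o + m) (K / Real.log (y / 2) ^ 1) := by
    intro i hi
    have hiR : (i : ℝ) ≤ n := by exact_mod_cast hi.le
    have hi0 : (0 : ℝ) ≤ i := Nat.cast_nonneg _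
    apply hst y hy hy0 (τ - j - i) (L / 2 ^ i) (by positivity)
    · rw [hlogLi, Nat.cast_sub (by omega), Nat.cast_sub hjτ]
      have h1 : (κ / 2 + 1) * j ≤ η / 2 * t := by
        have h2 : (j : ℝ) ≤ 2 * c₀ * t := by linarith
        have h3 : (κ + 2) * c₀ ≤ η / 2 := by
          have := mul_le_mul_of_nonneg_left hc₀3 (by linarith : 0 ≤ κ + 2)
          have e : (κ + 2) * (η / (2 * (κ + 2))) = η / 2 := by field_simp
          linarith
        calc (κ / 2 + 1) * j ≤ (κ / 2 + 1) * (2 * c₀ * t) :=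
              mul_le_mul_of_nonneg_left h2 (by linarith)
          _ = (κ + 2) * c₀ * t := by ring
          _ ≤ η / 2 * t := mul_le_mul_of_nonneg_right h3 htpos.le
      have h2 : κ * Real.log L ≤ κ * (t + j / 2) := mul_le_mul_of_nonneg_left hlogL1 (by linarith)
      have h3 : (i : ℝ) ≤ κ * (i * Real.log 2) := by
        have : 1 ≤ κ * Real.log 2 := by nlinarith
        nlinarith
      linarith
    · intro _
      rw [hlogLi]
      have h1 : (i : ℝ) * Real.log 2 ≤ t / 4 := by nlinarith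
      have h2 : t / 2 ≤ Real.log L - i * Real.log 2 := by linarith
      push_cast
      have h3 : (o : ℝ) + m ≤ 2 * c₀ * t := by linarith
      have h4 : 2 * c₀ * t ≤ c * (t / 2) := by nlinarith
      have h5 : c * (t / 2) ≤ c * (Real.log L - i * Real.log 2) := mul_le_mul_of_nonneg_left h2 hc.le
      linarith
  have h1 := wc_TS d y (o + m) n L hLpos (τ - j) hnτ hPB z
  have h2 := wc_shift_le (TS d y (τ - j)) L s (3 ^ (o + m)) z
  have hq : L / 3 ^ (o + m) = A / (2 ^ j * 3 ^ m) := by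
    rw [hL, pow_add]; field_simp
  have hq2 : L / 2 ^ n / 3 ^ (o + m) = 1 / 2 ^ n * (A / (2 ^ j * 3 ^ m)) := by
    rw [← hq]; field_simp
  rw [hq, hq2, pow_one, abs_of_pos (by positivity)] at h1
  have hcard' : ((wc (TS d y τ) A (2 * A) (2 ^ j * 3 ^ m) a).card : ℝ)
      ≤ (wc (TS d y (τ - j)) (L + s) (2 * L + s) (3 ^ (o + m)) z).card := by exact_mod_cast hcard
  -- errors
  have e1 : 1 / (2 : ℝ) ^ n ≤ 4 / Real.log (y / 2) := by
    have f1 : (n : ℝ) + 1 ≤ 2 ^ n := by exact_mod_cast Nat.lt_two_pow_self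
    rw [div_le_div_iff₀ (by positivity) hlogy]
    linarith
  have e2 : 1 / (2 : ℝ) ^ n * (A / (2 ^ j * 3 ^ m)) ≤ 4 / Real.log (y / 2) * (A / (2 ^ j * 3 ^ m)) :=
    mul_le_mul_of_nonneg_right e1 hY.le
  have e3 : |s| + 2 ≤ 4 * (|(d : ℝ)| + 2) / Real.log (y / 2) * (A / (2 ^ j * 3 ^ m)) := by
    have f1 : (3 : ℝ) ^ o ≤ Real.exp (t / 4) := by
      have : (3 : ℝ) ^ o = Real.exp (Real.log 3 * o) := by
        rw [mul_comm (Real.log 3), Real.exp_nat_mul, Real.exp_log (by norm_num)]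
      rw [this]
      apply Real.exp_le_exp.2
      have h5 : Real.log 3 ≤ 1.2 := by linarith
      nlinarith
    have f2 : (2 : ℝ) ^ j * 3 ^ m ≤ Real.exp (t / 4) := by
      have : (2 : ℝ) ^ j * 3 ^ m = Real.exp (j * Real.log 2 + m * Real.log 3) := by
        rw [Real.exp_add, Real.exp_nat_mul, Real.exp_nat_mul, Real.exp_log (by norm_num),
          Real.exp_log (by norm_num)]
      rw [this]
      apply Real.exp_le_exp.2
      linarith
    have f3 : Real.exp (t / 4) ≤ Real.exp (-(t / 2)) * (A / (2 ^ j * 3 ^ m)) := by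
      have g1 : Real.exp (t / 4) * Real.exp (t / 4) * Real.exp (t / 2) = A := by
        rw [← Real.exp_add, ← Real.exp_add, ← hexpA]; congr 1; ring
      have g2 : Real.exp (-(t / 2)) * Real.exp (t / 2) = 1 := by
        rw [← Real.exp_add]; simp
      rw [mul_div_assoc', le_div_iff₀ (by positivity)]
      calc Real.exp (t / 4) * (2 ^ j * 3 ^ m) ≤ Real.exp (t / 4) * Real.exp (t / 4) :=
            mul_le_mul_of_nonneg_left f2 (Real.exp_pos _).le
        _ = Real.exp (-(t / 2)) * A := by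
            rw [← g1]
            calc Real.exp (t / 4) * Real.exp (t / 4)
                = Real.exp (t / 4) * Real.exp (t / 4) * (Real.exp (-(t / 2)) * Real.exp (t / 2)) := by
                  rw [g2, mul_one]
              _ = _ := by ring
    have f4 : |s| + 2 ≤ (|(d : ℝ)| + 2) * Real.exp (t / 4) := by
      have g1 : |s| ≤ |(d : ℝ)| * Real.exp (t / 4) := by
        have : |(d : ℝ)| * 3 ^ o ≤ |(d : ℝ)| * Real.exp (t / 4) :=
          mul_le_mul_of_nonneg_left f1 (abs_nonneg _)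
        have h0 : 0 ≤ |(d : ℝ)| * 3 ^ o := by positivity
        linarith
      have g2 : 1 ≤ Real.exp (t / 4) := Real.one_le_exp (by linarith)
      linarith
    have f5 : Real.exp (-(t / 2)) ≤ 4 / Real.log (y / 2) := by
      have g1 := Real.add_one_le_exp (t / 2)
      rw [Real.exp_neg, inv_eq_one_div, div_le_div_iff₀ (Real.exp_pos _) hlogy]
      linarith
    have hd2 : 0 < |(d : ℝ)| + 2 := by positivity
    calc |s| + 2 ≤ (|(d : ℝ)| + 2) * Real.exp (t / 4) := f4
      _ ≤ (|(d : ℝ)| + 2) * (Real.exp (-(t / 2)) * (A / (2 ^ j * 3 ^ m))) :=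
          mul_le_mul_of_nonneg_left f3 hd2.le
      _ ≤ (|(d : ℝ)| + 2) * (4 / Real.log (y / 2) * (A / (2 ^ j * 3 ^ m))) := by
          apply mul_le_mul_of_nonneg_left _ hd2.le
          exact mul_le_mul_of_nonneg_right f5 hY.le
      _ = _ := by ring
  have e4 : (K + 4 + 4 * (|(d : ℝ)| + 2)) / Real.log (y / 2) * (A / (2 ^ j * 3 ^ m))
      = K / Real.log (y / 2) * (A / (2 ^ j * 3 ^ m)) + 4 / Real.log (y / 2) * (A / (2 ^ j * 3 ^ m))
        + 4 * (|(d : ℝ)| + 2) / Real.log (y / 2) * (A / (2 ^ j * 3 ^ m)) := by ring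
  rw [e4]
  linarith

/-- a bounded number of dyadic windows, upper bound -/
theorem dyadic_upper {S : Set ℤ} {ε c₀ q X0 : ℝ} {Q a : ℤ} (hc : 0 ≤ c₀)
    (hq : 0 < q) (hql : ∀ A : ℝ, 1 ≤ A → A ≤ X0 → Real.log q ≤ c₀ * Real.log A →
      ((wc S A (2 * A) Q a).card : ℝ) ≤ ε * (A / q)) (n : ℕ) :
    ∀ X : ℝ, X ≤ X0 → 1 ≤ X / 2 ^ n → Real.log q ≤ c₀ * Real.log (X / 2 ^ n) →
      ((wc S (X / 2 ^ n) X Q a).card : ℝ) ≤ ε * ((X - X / 2 ^ n) / q) := by
  induction n with
  | zero =>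
    intro X _ hX hlog
    have h0 : wc S (X / 2 ^ 0) X Q a = ∅ := by
      rw [Finset.eq_empty_iff_forall_notMem]
      intro x hx
      rw [mem_wc] at hx
      have h1 := hx.1.1
      have h2 := hx.1.2
      rw [pow_zero, div_one] at h1
      linarith
    rw [h0]; simp
  | succ n ih =>
    intro X hX0 hX hlog
    have hXpos : 0 < X := by
      by_contra h
      push Not at h
      have : X / 2 ^ (n + 1) ≤ 0 := div_nonpos_of_nonpos_of_nonneg h (by positivity)
      linarith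
    have e1 : X / 2 ^ n = 2 * (X / 2 ^ (n + 1)) := by rw [pow_succ]; field_simp
    have hle : X / 2 ^ (n + 1) ≤ X / 2 ^ n := by rw [e1]; linarith
    have hle2 : X / 2 ^ n ≤ X := div_le_self hXpos.le (one_le_pow₀ (by norm_num))
    have h1 := ih X hX0 (hX.trans hle) (hlog.trans (mul_le_mul_of_nonneg_left
      (Real.log_le_log (by linarith) hle) hc))
    have h2 := hql _ hX ((hle.trans hle2).trans hX0) hlog
    rw [← e1] at h2
    rw [wc_add S hle hle2 Q a]
    have e2 : X - X / 2 ^ (n + 1) = (X - X / 2 ^ n) + X / 2 ^ (n + 1) := by rw [e1]; ring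
    rw [e2, add_div, mul_add]
    linarith

/-- TIMED DESCENT in the classes mod `2^j 3^m ≤ X^c` -/
theorem timed_X {d : ℤ} (hd : Odd d) (hd3 : IsCoprime d 3) {η : ℝ} (hη : 0 < η) : ∃ c : ℝ, 0 < c ∧
    c ≤ 1 / 16000 ∧ ∀ ε : ℝ, 0 < ε → ∃ y0 : ℝ, 1 ≤ y0 ∧ ∃ X0 : ℝ, 1 ≤ X0 ∧ ∀ y : ℝ, y0 ≤ y →
      ∀ X : ℝ, X0 ≤ X → ∀ τ : ℕ,
      (2 / Real.log (4 / 3) + η) * Real.log X ≤ τ → ∀ j m : ℕ,
      Real.log (2 ^ j * 3 ^ m) ≤ c * Real.log X → ∀ a : ℤ,
      ((wc (TS d y τ) 1 X (2 ^ j * 3 ^ m) a).card : ℝ) ≤ ε * (X / (2 ^ j * 3 ^ m)) := by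
  obtain ⟨K, hK, c₀, hc₀, hc₀1, hw⟩ := window_TS hd hd3 hη
  refine ⟨c₀ / 2, by positivity, by linarith, ?_⟩
  intro ε hε
  obtain ⟨n, hn⟩ := pow_unbounded_of_one_lt (4 / ε) (by norm_num : (1 : ℝ) < 2)
  have h2n : (0 : ℝ) < 2 ^ n := by positivity
  have h2n1 : (1 : ℝ) ≤ 2 ^ n := one_le_pow₀ (by norm_num)
  have hn' : 1 / 2 ^ n ≤ ε / 4 := by
    rw [div_le_iff₀ h2n]
    rw [div_lt_iff₀ hε] at hn
    nlinarith
  set T : ℝ := max 1000 (4 * K / ε) with hT
  have hT1 : 1000 ≤ T := le_max_left _ _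
  have hT2 : 4 * K / ε ≤ T := le_max_right _ _
  refine ⟨2 * Real.exp T, by linarith [Real.one_le_exp (by linarith : 0 ≤ T)],
    max ((2 ^ n) ^ 2) ((4 / ε) ^ 2), ?_, ?_⟩
  · refine le_trans ?_ (le_max_left _ _)
    nlinarith
  intro y hy X hX τ hτ j m hjm a
  have hy0 : 0 < y := lt_of_lt_of_le (by positivity) hy
  have hlogy : T ≤ Real.log (y / 2) := by
    rw [Real.le_log_iff_exp_le (by positivity)]; linarith
  have hX2 : (2 ^ n) ^ 2 ≤ X := (le_max_left _ _).trans hX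
  have hX3 : (4 / ε) ^ 2 ≤ X := (le_max_right _ _).trans hX
  have hX0 : 1 ≤ X := by nlinarith
  have hlogX : 0 ≤ Real.log X := Real.log_nonneg hX0
  have hκ : 0 < 2 / Real.log (4 / 3) + η := by
    have : 0 < Real.log (4 / 3) := Real.log_pos (by norm_num)
    positivity
  set q : ℝ := 2 ^ j * 3 ^ m with hq
  have hq0 : 0 < q := by positivity
  have hXn : 1 ≤ X / 2 ^ n := by
    rw [le_div_iff₀ h2n]; nlinarith
  have hlog : Real.log X / 2 ≤ Real.log (X / 2 ^ n) := by
    rw [Real.log_div (by linarith) h2n.ne']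
    have h1 : Real.log ((2 ^ n) ^ 2) ≤ Real.log X := Real.log_le_log (by positivity) hX2
    rw [Real.log_pow] at h1
    push_cast at h1
    linarith
  have hlogq : Real.log q ≤ c₀ * Real.log (X / 2 ^ n) := by
    calc Real.log q ≤ c₀ / 2 * Real.log X := hjm
      _ = c₀ * (Real.log X / 2) := by ring
      _ ≤ _ := mul_le_mul_of_nonneg_left hlog hc₀.le
  have h1 := dyadic_upper (S := TS d y τ) (ε := ε / 4) (c₀ := c₀) (q := q) (X0 := X)
    (Q := 2 ^ j * 3 ^ m) (a := a) hc₀.le hq0 (fun A hA1 hAX hl' => by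
      have h2 := hw y hy0 (by linarith) A (by linarith) τ (le_trans (mul_le_mul_of_nonneg_left
        (Real.log_le_log (by linarith) hAX) hκ.le) hτ) j m hl' a
      refine h2.trans ?_
      apply mul_le_mul_of_nonneg_right _ (by positivity)
      rw [div_le_iff₀ (by linarith)]
      rw [div_le_iff₀ hε] at hT2
      nlinarith) n X le_rfl hXn hlogq
  have hXn2 : X / 2 ^ n ≤ X := div_le_self (by linarith) h2n1
  have h2 := wc_add (TS d y τ) hXn hXn2 (2 ^ j * 3 ^ m) a
  have h3 := wc_card_le (TS d y τ) hXn (q := 2 ^ j * 3 ^ m) (by positivity) a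
  have h3' : ((wc (TS d y τ) 1 (X / 2 ^ n) (2 ^ j * 3 ^ m) a).card : ℝ) ≤ (X / 2 ^ n - 1) / q + 1 := by
    have : (((2 ^ j * 3 ^ m : ℤ)) : ℝ) = q := by rw [hq]; push_cast; ring
    rw [this] at h3
    exact h3
  have h4 : (X / 2 ^ n - 1) / q ≤ (X / 2 ^ n) / q :=
    div_le_div_of_nonneg_right (by linarith) hq0.le
  have h5 : 1 ≤ ε / 4 * (X / q) := by
    have h6 : q ≤ Real.sqrt X := by
      rw [← Real.log_le_log_iff hq0 (Real.sqrt_pos.2 (by linarith)), Real.log_sqrt (by linarith)]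
      calc Real.log q ≤ c₀ / 2 * Real.log X := hjm
        _ ≤ Real.log X / 2 := by nlinarith
    have h7 : 4 / ε ≤ Real.sqrt X := by
      apply Real.le_sqrt_of_sq_le hX3
    have h8 : Real.sqrt X * Real.sqrt X = X := Real.mul_self_sqrt (by linarith)
    rw [mul_div_assoc', le_div_iff₀ hq0, one_mul]
    have h9 : 4 ≤ ε * Real.sqrt X := by
      rw [div_le_iff₀ hε] at h7; linarith
    have h10 : 0 ≤ Real.sqrt X := Real.sqrt_nonneg _
    calc q ≤ Real.sqrt X := h6
      _ = 1 * Real.sqrt X := by ring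
      _ ≤ (ε / 4 * Real.sqrt X) * Real.sqrt X := by
          apply mul_le_mul_of_nonneg_right _ h10
          linarith
      _ = ε / 4 * X := by rw [mul_assoc, h8]
  have hY : 0 < X / q := by positivity
  have h6 : X / 2 ^ n / q ≤ ε / 4 * (X / q) := by
    have : X / 2 ^ n / q = 1 / 2 ^ n * (X / q) := by field_simp
    rw [this]
    exact mul_le_mul_of_nonneg_right hn' hY.le
  have h9 : ε / 4 * ((X - X / 2 ^ n) / q) ≤ ε / 4 * (X / q) := by
    apply mul_le_mul_of_nonneg_left _ (by positivity)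
    apply div_le_div_of_nonneg_right _ hq0.le
    have : 0 ≤ X / 2 ^ n := by positivity
    linarith
  rw [h2]
  linarith

end Pool.Agent.H319R3.LV
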