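import Pool.Agent.H319R3.LV.LV6
import Pool.Agent.H319R3.LV.LV8

/-! Level of distribution with time control. -/

set_option autoImplicit false
set_option linter.unusedVariables false

namespace Pool.Agent.H319R3.LV

open Pool.Agent.H320R2.PD Pool.Agent.H499R2.ND Finset Filter Topology

theorem TS_side {d : ℤ} (hd : Odd d) {s : ℤ} (hs : s = 1 ∨ s = -1) (y : ℝ) (τ : ℕ) :
    {x : ℤ | s * x ∈ TS d y τ} = TS (s * d) y τ := by
  ext x
  constructor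
  · intro h j hj
    rw [Td_side hd hs j x]
    have := h j hj
    rcases hs with rfl | rfl
    · simpa using this
    · push_cast; rw [neg_one_mul, abs_neg]; exact_mod_cast this
  · intro h j hj
    have := h j hj
    rw [Td_side hd hs j x] at this
    rcases hs with rfl | rfl
    · simpa using this
    · push_cast at this; rw [neg_one_mul, abs_neg] at this; exact_mod_cast this

/-- TIMED DESCENT in classes, counting form, both sides -/
theorem timed_side {d : ℤ} (hd : Odd d) (hd3 : IsCoprime d 3) {η : ℝ} (hη : 0 < η) : ∃ c : ℝ, 0 < c ∧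
    c ≤ 1 / 16000 ∧ ∀ s : ℤ, (s = 1 ∨ s = -1) → ∀ ε : ℝ, 0 < ε → ∃ y0 : ℝ, 1 ≤ y0 ∧ ∃ N0 : ℕ, 1 ≤ N0 ∧
      ∀ y : ℝ, y0 ≤ y → ∀ N : ℕ, N0 ≤ N → ∀ τ : ℕ,
      (2 / Real.log (4 / 3) + η) * Real.log ((N : ℝ) + 1) ≤ τ → ∀ j m : ℕ,
      (2 : ℝ) ^ j * 3 ^ m ≤ (N : ℝ) ^ c → ∀ a : ℤ,
      ({n : ℤ | 0 < s * n ∧ s * n ≤ N ∧ n ∈ TS d y τ ∧ (2 ^ j * 3 ^ m : ℤ) ∣ n - a}.ncard : ℝ)
        ≤ ε * ((N : ℝ) / (2 ^ j * 3 ^ m)) := by
  have key : ∀ s : ℤ, (s = 1 ∨ s = -1) → ∃ c : ℝ, 0 < c ∧ c ≤ 1 / 16000 ∧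
      ∀ ε : ℝ, 0 < ε → ∃ y0 : ℝ, 1 ≤ y0 ∧ ∃ N0 : ℕ, 1 ≤ N0 ∧
      ∀ y : ℝ, y0 ≤ y → ∀ N : ℕ, N0 ≤ N → ∀ τ : ℕ,
      (2 / Real.log (4 / 3) + η) * Real.log ((N : ℝ) + 1) ≤ τ → ∀ j m : ℕ,
      Real.log (2 ^ j * 3 ^ m) ≤ c * Real.log N → ∀ a : ℤ,
      ({n : ℤ | 0 < s * n ∧ s * n ≤ N ∧ n ∈ TS d y τ ∧ (2 ^ j * 3 ^ m : ℤ) ∣ n - a}.ncard : ℝ)
        ≤ ε * ((N : ℝ) / (2 ^ j * 3 ^ m)) := by
    intro s hs
    obtain ⟨c, hc, hc1, h⟩ := timed_X (side_odd hd hs) (side_cop hd3 hs) hη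
    refine ⟨c, hc, hc1, fun ε hε => ?_⟩
    obtain ⟨y0, hy0, X0, hX0, hX⟩ := h (ε / 2) (by positivity)
    obtain ⟨N0, hN0⟩ := exists_nat_ge X0
    refine ⟨y0, hy0, N0, by exact_mod_cast hX0.trans hN0, ?_⟩
    intro y hy N hN τ hτ j m hjm a
    have hNR : (N0 : ℝ) ≤ N := by exact_mod_cast hN
    have hN1 : (1 : ℝ) ≤ N := (hX0.trans hN0).trans hNR
    rw [ncard_class hs (TS d y τ) N, TS_side hd hs]
    refine (hX y hy ((N : ℝ) + 1) (by linarith) τ hτ j m (hjm.trans (mul_le_mul_of_nonneg_left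
      (Real.log_le_log (by linarith) (by linarith)) hc.le)) (s * a)).trans ?_
    have hq0 : (0 : ℝ) < 2 ^ j * 3 ^ m := by positivity
    have : ((N : ℝ) + 1) / (2 ^ j * 3 ^ m) ≤ 2 * (N / (2 ^ j * 3 ^ m)) := by
      rw [mul_div_assoc']
      apply div_le_div_of_nonneg_right _ hq0.le
      linarith
    calc ε / 2 * (((N : ℝ) + 1) / (2 ^ j * 3 ^ m)) ≤ ε / 2 * (2 * (N / (2 ^ j * 3 ^ m))) :=
          mul_le_mul_of_nonneg_left this (by positivity)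
      _ = _ := by ring
  obtain ⟨c1, hc1, hc1', h1⟩ := key 1 (Or.inl rfl)
  obtain ⟨c2, hc2, hc2', h2⟩ := key (-1) (Or.inr rfl)
  refine ⟨min c1 c2, lt_min hc1 hc2, (min_le_left _ _).trans hc1', ?_⟩
  intro s hs ε hε
  have hfin : ∀ c' : ℝ, min c1 c2 ≤ c' → ∀ N : ℕ, 1 ≤ N → ∀ j m : ℕ,
      (2 : ℝ) ^ j * 3 ^ m ≤ (N : ℝ) ^ (min c1 c2) → Real.log (2 ^ j * 3 ^ m) ≤ c' * Real.log N := by
    intro c' hc' N hN j m hjm
    have hN1 : (1 : ℝ) ≤ N := by exact_mod_cast hN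
    have h3 := Real.log_le_log (by positivity) hjm
    rw [Real.log_rpow (by linarith)] at h3
    exact h3.trans (mul_le_mul_of_nonneg_right hc' (Real.log_nonneg hN1))
  rcases hs with rfl | rfl
  · obtain ⟨y0, hy0, N0, hN0, h⟩ := h1 ε hε
    exact ⟨y0, hy0, N0, hN0, fun y hy N hN τ hτ j m hjm a =>
      h y hy N hN τ hτ j m (hfin c1 (min_le_left _ _) N (hN0.trans hN) j m hjm) a⟩
  · obtain ⟨y0, hy0, N0, hN0, h⟩ := h2 ε hε
    exact ⟨y0, hy0, N0, hN0, fun y hy N hN τ hτ j m hjm a =>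
      h y hy N hN τ hτ j m (hfin c2 (min_le_right _ _) N (hN0.trans hN) j m hjm) a⟩

/-- bounded elements of a set reach a target in bounded time -/
theorem bounded_time {d : ℤ} {S F : Set ℤ} (hF : ∀ x ∈ S, ∃ i : ℕ, (Td d)^[i] x ∈ F) (y : ℝ) :
    ∃ t : ℕ, ∀ x ∈ S, |(x : ℝ)| ≤ y → ∃ i : ℕ, i ≤ t ∧ (Td d)^[i] x ∈ F := by
  classical
  have hfin : {x : ℤ | x ∈ S ∧ |(x : ℝ)| ≤ y}.Finite := by
    apply (Set.finite_Icc (-⌈y⌉) ⌈y⌉).subset
    rintro x ⟨_, hx⟩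
    have h1 := abs_le.1 hx
    have h2 := Int.le_ceil y
    rw [Set.mem_Icc]
    constructor
    · have : (-(⌈y⌉ : ℤ) : ℝ) ≤ x := by linarith [h1.1]
      exact_mod_cast this
    · have : (x : ℝ) ≤ ⌈y⌉ := by linarith [h1.2]
      exact_mod_cast this
  choose! f hf using hF
  refine ⟨hfin.toFinset.sup f, fun x hx hxy => ⟨f x, ?_, hf x hx⟩⟩
  exact Finset.le_sup (f := f) (hfin.mem_toFinset.2 ⟨hx, hxy⟩)

/-- LEVEL OF DISTRIBUTION WITH TIME CONTROL -/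
theorem level_timed {d : ℤ} (hd : Odd d) (hd3 : IsCoprime d 3) {η : ℝ} (hη : 0 < η) : ∃ c : ℝ, 0 < c ∧
    ∀ s : ℤ, (s = 1 ∨ s = -1) → ∀ S F : Set ℤ, Inv d S → (∀ x ∈ S, ∃ i : ℕ, (Td d)^[i] x ∈ F) →
    ∀ l : ℝ, HD s S l → ∀ ε : ℝ, 0 < ε → ∃ N0 : ℕ, ∀ N : ℕ, N0 ≤ N → ∀ j m : ℕ,
      (2 : ℝ) ^ j * 3 ^ m ≤ (N : ℝ) ^ c → ∀ a : ℤ,
      |({n : ℤ | 0 < s * n ∧ s * n ≤ N ∧ n ∈ S ∧ (2 ^ j * 3 ^ m : ℤ) ∣ n - a}.ncard : ℝ)
          - l * ((N : ℝ) / (2 ^ j * 3 ^ m))| ≤ ε * ((N : ℝ) / (2 ^ j * 3 ^ m)) ∧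
      |({n : ℤ | 0 < s * n ∧ s * n ≤ N ∧ n ∈ S ∧ (2 ^ j * 3 ^ m : ℤ) ∣ n - a ∧
          ∃ i : ℕ, (i : ℝ) ≤ (2 / Real.log (4 / 3) + η) * Real.log |(n : ℝ)| ∧ (Td d)^[i] n ∈ F}.ncard : ℝ)
          - l * ((N : ℝ) / (2 ^ j * 3 ^ m))| ≤ ε * ((N : ℝ) / (2 ^ j * 3 ^ m)) := by
  obtain ⟨c1, hc1, hc1', h1⟩ := level_side hd hd3
  obtain ⟨c2, hc2, hc2', h2⟩ := timed_side hd hd3 (η := η / 3) (by positivity)
  refine ⟨min c1 c2, lt_min hc1 hc2, ?_⟩
  intro s hs S F hS hF l hl ε hε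
  set ε' : ℝ := min (ε / 8) (1 / 2) with hε'
  have hε'0 : 0 < ε' := lt_min (by positivity) (by norm_num)
  have hε'1 : ε' ≤ ε / 8 := min_le_left _ _
  have hε'2 : ε' ≤ 1 / 2 := min_le_right _ _
  obtain ⟨N1, hN1, hA⟩ := h1 s hs S hS l hl ε' hε'0
  obtain ⟨y, hy1, N2, hN2, hB⟩ := h2 s hs ε' hε'0
  obtain ⟨t, ht⟩ := bounded_time hF y
  set κ : ℝ := 2 / Real.log (4 / 3) with hκ
  have hκ0 : 0 < κ := by
    have : 0 < Real.log (4 / 3) := Real.log_pos (by norm_num)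
    positivity
  -- thresholds
  set M1 : ℝ := Real.exp ((3 / η) * ((κ + η / 3) * 1 + 1 + t + (κ + η) * Real.log (1 / ε'))) with hM1
  obtain ⟨N3, hN3⟩ := exists_nat_ge (max M1 ((1 / ε') ^ 2))
  refine ⟨max (max N1 N2) (max N3 1), ?_⟩
  intro N hN j m hjm a
  have hN1' : N1 ≤ N := ((le_max_left _ _).trans (le_max_left _ _)).trans hN
  have hN2' : N2 ≤ N := ((le_max_right _ _).trans (le_max_left _ _)).trans hN
  have hN3' : N3 ≤ N := ((le_max_left _ _).trans (le_max_right _ _)).trans hN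
  have hN4 : 1 ≤ N := ((le_max_right _ _).trans (le_max_right _ _)).trans hN
  have hNR : (1 : ℝ) ≤ N := by exact_mod_cast hN4
  have hN3R : (N3 : ℝ) ≤ N := by exact_mod_cast hN3'
  have hM1N : M1 ≤ N := ((le_max_left _ _).trans hN3).trans hN3R
  have hεN : (1 / ε') ^ 2 ≤ N := ((le_max_right _ _).trans hN3).trans hN3R
  have hlogN : (3 / η) * ((κ + η / 3) * 1 + 1 + t + (κ + η) * Real.log (1 / ε')) ≤ Real.log N := by
    rw [Real.le_log_iff_exp_le (by linarith)]; exact hM1N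
  have hpow : ∀ c' : ℝ, min c1 c2 ≤ c' → (2 : ℝ) ^ j * 3 ^ m ≤ (N : ℝ) ^ c' := fun c' hc' =>
    hjm.trans (Real.rpow_le_rpow_of_exponent_le hNR hc')
  have hA' := hA N hN1' j m (hpow c1 (min_le_left _ _)) a
  have hB' := hB y le_rfl N hN2' ⌈(κ + η / 3) * Real.log ((N : ℝ) + 1)⌉₊ (Nat.le_ceil _) j m
    (hpow c2 (min_le_right _ _)) a
  set τ := ⌈(κ + η / 3) * Real.log ((N : ℝ) + 1)⌉₊ with hτ
  set q : ℝ := 2 ^ j * 3 ^ m with hq
  have hq0 : 0 < q := by positivity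
  set Q : ℤ := 2 ^ j * 3 ^ m with hQ
  set Y : ℝ := (N : ℝ) / q with hY
  have hY0 : 0 < Y := by positivity
  set E : Set ℤ := {n : ℤ | 0 < s * n ∧ s * n ≤ N ∧ n ∈ S ∧ Q ∣ n - a} with hE
  set P : Set ℤ := {n : ℤ | 0 < s * n ∧ s * n ≤ N ∧ n ∈ S ∧ Q ∣ n - a ∧
    ∃ i : ℕ, (i : ℝ) ≤ (κ + η) * Real.log |(n : ℝ)| ∧ (Td d)^[i] n ∈ F} with hP
  set U : Set ℤ := {n : ℤ | 0 < s * n ∧ s * n ≤ N ∧ n ∈ TS d y τ ∧ Q ∣ n - a} with hU
  set V : Set ℤ := {n : ℤ | 0 < s * n ∧ s * n ≤ (⌊ε' * N⌋₊ : ℕ) ∧ n ∈ (Set.univ : Set ℤ) ∧ Q ∣ n - a} with hV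
  have hfinbig : ∀ M : ℕ, {n : ℤ | 0 < s * n ∧ s * n ≤ M}.Finite := by
    intro M
    apply (Set.finite_Icc (-(M : ℤ)) M).subset
    rintro n ⟨h3, h4⟩
    rw [Set.mem_Icc]
    rcases hs with rfl | rfl <;> constructor <;> omega
  have hEfin : E.Finite := (hfinbig N).subset fun n hn => ⟨hn.1, hn.2.1⟩
  have hPfin : P.Finite := (hfinbig N).subset fun n hn => ⟨hn.1, hn.2.1⟩
  have hUfin : U.Finite := (hfinbig N).subset fun n hn => ⟨hn.1, hn.2.1⟩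
  have hVfin : V.Finite := (hfinbig _).subset fun n hn => ⟨hn.1, hn.2.1⟩
  have hPE : P.ncard ≤ E.ncard := Set.ncard_le_ncard (fun n hn => ⟨hn.1, hn.2.1, hn.2.2.1, hn.2.2.2.1⟩) hEfin
  -- the time bound
  have hτle : (τ : ℝ) ≤ (κ + η / 3) * (Real.log N + 1) + 1 := by
    have h3 : (τ : ℝ) < (κ + η / 3) * Real.log ((N : ℝ) + 1) + 1 := by
      apply Nat.ceil_lt_add_one
      apply mul_nonneg (by positivity) (Real.log_nonneg (by linarith))
    have h4 : Real.log ((N : ℝ) + 1) ≤ Real.log N + 1 := by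
      have h5 : Real.log ((N : ℝ) + 1) ≤ Real.log (Real.exp 1 * N) := by
        apply Real.log_le_log (by linarith)
        have := Real.add_one_le_exp 1
        nlinarith
      rw [Real.log_mul (Real.exp_pos 1).ne' (by linarith), Real.log_exp] at h5
      linarith
    have h5 : (κ + η / 3) * Real.log ((N : ℝ) + 1) ≤ (κ + η / 3) * (Real.log N + 1) :=
      mul_le_mul_of_nonneg_left h4 (by positivity)
    linarith
  have hsub : E ⊆ P ∪ (U ∪ V) := by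
    intro n hn
    obtain ⟨h3, h4, h5, h6⟩ := hn
    by_cases hU' : n ∈ TS d y τ
    · exact Or.inr (Or.inl ⟨h3, h4, hU', h6⟩)
    · by_cases hV' : s * n ≤ (⌊ε' * N⌋₊ : ℕ)
      · exact Or.inr (Or.inr ⟨h3, hV', Set.mem_univ _, h6⟩)
      · left
        refine ⟨h3, h4, h5, h6, ?_⟩
        -- descent
        have h7 : ∃ i : ℕ, i ≤ τ ∧ |(((Td d)^[i] n : ℤ) : ℝ)| ≤ y := by
          unfold TS at hU'
          simp only [Set.mem_setOf_eq, not_forall] at hU'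
          obtain ⟨i, hi, hi'⟩ := hU'
          exact ⟨i, hi, not_lt.1 hi'⟩
        obtain ⟨i, hi, hiy⟩ := h7
        obtain ⟨i', hi', hiF⟩ := ht _ ((inv_iter hS i n).1 h5) hiy
        refine ⟨i' + i, ?_, ?_⟩
        · -- size of n
          have h8 : |(n : ℝ)| = ((s * n : ℤ) : ℝ) := by
            rcases hs with rfl | rfl
            · rw [one_mul, abs_of_pos]
              have : 0 < n := by omega
              exact_mod_cast this
            · rw [abs_of_neg]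
              · push_cast; ring
              · have : n < 0 := by omega
                exact_mod_cast this
          have h9 : ε' * N ≤ |(n : ℝ)| := by
            rw [h8]
            push Not at hV'
            have h10 : ε' * N < (⌊ε' * (N : ℝ)⌋₊ : ℝ) + 1 := Nat.lt_floor_add_one _
            have h11 : ((⌊ε' * (N : ℝ)⌋₊ : ℕ) : ℤ) + 1 ≤ s * n := by omega
            have h12 : ((⌊ε' * (N : ℝ)⌋₊ : ℕ) : ℝ) + 1 ≤ ((s * n : ℤ) : ℝ) := by exact_mod_cast h11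
            linarith
          have h10 : Real.log N - Real.log (1 / ε') ≤ Real.log |(n : ℝ)| := by
            have h11 := Real.log_le_log (by positivity) h9
            rw [Real.log_mul hε'0.ne' (by linarith)] at h11
            rw [one_div, Real.log_inv]
            linarith
          have h11 : (κ + η) * (Real.log N - Real.log (1 / ε')) ≤ (κ + η) * Real.log |(n : ℝ)| :=
            mul_le_mul_of_nonneg_left h10 (by positivity)
          have h12 : (i : ℝ) ≤ τ := by exact_mod_cast hi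
          have h13 : (i' : ℝ) ≤ t := by exact_mod_cast hi'
          have h14 : (κ + η / 3) * 1 + 1 + t + (κ + η) * Real.log (1 / ε') ≤ η / 3 * Real.log N := by
            have := mul_le_mul_of_nonneg_left hlogN (by positivity : 0 ≤ η / 3)
            have e : η / 3 * (3 / η * ((κ + η / 3) * 1 + 1 + t + (κ + η) * Real.log (1 / ε')))
                = (κ + η / 3) * 1 + 1 + t + (κ + η) * Real.log (1 / ε') := by field_simp
            linarith
          have h15 : 0 ≤ Real.log N := Real.log_nonneg hNR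
          push_cast
          nlinarith
        · rw [Function.iterate_add_apply]; exact hiF
  have hcardE : (E.ncard : ℝ) ≤ P.ncard + (U.ncard + V.ncard) := by
    have h3 := (Set.ncard_le_ncard hsub (hPfin.union (hUfin.union hVfin))).trans
      ((Set.ncard_union_le _ _).trans (Nat.add_le_add_left (Set.ncard_union_le _ _) _))
    exact_mod_cast h3
  have hVle : (V.ncard : ℝ) ≤ 2 * ε' * Y := by
    rw [hV, ncard_class hs Set.univ]
    have h3 := wc_card_le {x : ℤ | s * x ∈ (Set.univ : Set ℤ)}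
      (by linarith [Nat.cast_nonneg (α := ℝ) ⌊ε' * (N : ℝ)⌋₊] : (1 : ℝ) ≤ (⌊ε' * (N : ℝ)⌋₊ : ℝ) + 1)
      (q := Q) (by positivity) (s * a)
    have hQq : ((Q : ℤ) : ℝ) = q := by rw [hQ, hq]; push_cast; ring
    rw [hQq] at h3
    have h4 : (⌊ε' * (N : ℝ)⌋₊ : ℝ) ≤ ε' * N := Nat.floor_le (by positivity)
    have h5 : ((⌊ε' * (N : ℝ)⌋₊ : ℝ) + 1 - 1) / q ≤ ε' * Y := by
      rw [hY, mul_div_assoc']
      apply div_le_div_of_nonneg_right _ hq0.le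
      linarith
    have h6 : 1 ≤ ε' * Y := by
      have h7 : q ≤ Real.sqrt N := by
        rw [Real.sqrt_eq_rpow]
        refine (hpow c1 (min_le_left _ _)).trans (Real.rpow_le_rpow_of_exponent_le hNR ?_)
        linarith
      have h8 : 1 / ε' ≤ Real.sqrt N := Real.le_sqrt_of_sq_le hεN
      have h9 : Real.sqrt N * Real.sqrt N = N := Real.mul_self_sqrt (by linarith)
      rw [hY, mul_div_assoc', le_div_iff₀ hq0, one_mul]
      have h10 : 1 ≤ ε' * Real.sqrt N := by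
        rw [div_le_iff₀ hε'0] at h8; linarith
      calc q ≤ Real.sqrt N := h7
        _ = 1 * Real.sqrt N := by ring
        _ ≤ (ε' * Real.sqrt N) * Real.sqrt N := mul_le_mul_of_nonneg_right h10 (Real.sqrt_nonneg _)
        _ = ε' * N := by rw [mul_assoc, h9]
    linarith
  have hPE' : (P.ncard : ℝ) ≤ E.ncard := by exact_mod_cast hPE
  have hε8 : ε' * Y ≤ ε / 8 * Y := mul_le_mul_of_nonneg_right hε'1 hY0.le
  have hεY : 0 < ε * Y := by positivity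
  refine ⟨hA'.trans (by linarith), ?_⟩
  rw [abs_le] at hA' ⊢
  constructor
  · linarith [hA'.1]
  · linarith [hA'.2]

end Pool.Agent.H319R3.LV
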